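import Pool.Agent.MP_d9ba76_lc.Fix
import Pool.Agent.MP_114209_co.H79.Base
import Pool.Agent.MP_114209_co.H79.Kern

attribute [-instance] AddQuantale.instAddLeftMono IdemSemiring.toCanonicallyOrderedAdd
  NumberField.to_charZero LinearOrderedCommMonoidWithZero.toPosMulStrictMono
  IsOrderedMonoid.toMulLeftMono AddQuantale.instAddRightMono IdemSemiring.toMulLeftMono
  RKHS.instFunLike Quantale.instMulLeftMono Quantale.instMulRightMono
  CanonicallyOrderedAdd.toMulLeftMono Nontrivial.to_nonempty instCoeOTCOfCoeTC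
  covariant_swap_mul_of_covariant_mul continuousSub_of_discreteTopology
  CompletePartialOrder.toPartialOrder LinearOrder.toDecidableEq littleWedderburn
  LieAdmissibleRing.toNonUnitalNonAssocRing

-- part MP_114209_co.H79.Proc
section

namespace Pool.Agent.MP_114209_co.H79

open Finset

variable {V : Type} [DecidableEq V]

/-- Remaining mass after `i` steps of a walk. -/
noncomputable def prAl (H : V → ℝ) (l : List V) (i : ℕ) : ℝ := max 0 (1 - ((l.take i).map H).sum)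

/-- Occupation of a walk. -/
noncomputable def prGl (H : V → ℝ) (l : List V) (u : V) : ℝ :=
  ∑ i ∈ range l.length, if l[i]? = some u then prAl H l i else 0

/-- Stopping mass of a walk. -/
noncomputable def prSl (H : V → ℝ) (l : List V) (u : V) : ℝ :=
  ∑ i ∈ range l.length, if l[i]? = some u then prAl H l i - prAl H l (i + 1) else 0

variable {H : V → ℝ} {l : List V} {u : V} {i : ℕ}

omit [DecidableEq V] in
theorem prAl_nonneg : 0 ≤ prAl H l i := le_max_left _ _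

omit [DecidableEq V] in
theorem pr_sum_nonneg (h0 : ∀ u, 0 ≤ H u) (l : List V) : 0 ≤ (l.map H).sum :=
  List.sum_nonneg fun x hx => by obtain ⟨a, -, rfl⟩ := List.mem_map.1 hx; exact h0 a

omit [DecidableEq V] in
theorem prAl_le (h0 : ∀ u, 0 ≤ H u) : prAl H l i ≤ 1 :=
  max_le zero_le_one (by linarith [pr_sum_nonneg h0 (l.take i)])

omit [DecidableEq V] in
theorem prAl_step (h0 : ∀ u, 0 ≤ H u) (h : l[i]? = some u) :
    prAl H l i - prAl H l (i + 1) = min (H u) (prAl H l i) := by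
  have := h0 u
  simp only [prAl, List.take_add_one, h, Option.toList_some, List.map_append, List.sum_append,
    List.map_cons, List.map_nil, List.sum_cons, List.sum_nil, add_zero, max_def, min_def]
  split_ifs <;> linarith

omit [DecidableEq V] in
theorem prAl_anti (h0 : ∀ u, 0 ≤ H u) : prAl H l (i + 1) ≤ prAl H l i := by
  rcases h : l[i]? with _ | u
  · simp only [prAl, List.take_add_one, h, Option.toList_none, List.append_nil, List.map_take, Std.le_refl]
  · have := prAl_step h0 h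
    have : 0 ≤ min (H u) (prAl H l i) := le_min (h0 u) prAl_nonneg
    linarith

theorem prGl_nonneg : 0 ≤ prGl H l u :=
  sum_nonneg fun _ _ => by split_ifs; exacts [prAl_nonneg, le_rfl]

theorem prSl_nonneg (h0 : ∀ u, 0 ≤ H u) : 0 ≤ prSl H l u :=
  sum_nonneg fun _ _ => by split_ifs; exacts [sub_nonneg.2 (prAl_anti h0), le_rfl]

theorem pr_count (l : List V) (u : V) (n : ℕ) :
    (((l.take n).count u : ℕ) : ℝ) = ∑ i ∈ range n, if l[i]? = some u then 1 else 0 := by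
  induction n with
  | zero => simp only [List.take_zero, List.nodup_nil, List.count_nil, CharP.cast_eq_zero, range_zero, sum_boole, filter_empty, card_empty]
  | succ n ih =>
    rw [sum_range_succ, ← ih, List.take_add_one, List.count_append]
    rcases h : l[n]? with _ | z
    · simp
    · by_cases e : z = u <;> simp [e]

theorem prSl_ge (h0 : ∀ u, 0 ≤ H u) (h1 : ∀ u, H u ≤ 1) : H u * prGl H l u ≤ prSl H l u := by
  rw [prGl, mul_sum]
  refine sum_le_sum fun i _ => ?_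
  split_ifs with h
  · rw [prAl_step h0 h]
    exact le_min (mul_le_of_le_one_right (h0 u) (prAl_le h0))
      (mul_le_of_le_one_left prAl_nonneg (h1 u))
  · simp

theorem prSl_le (h0 : ∀ u, 0 ≤ H u) : prSl H l u ≤ H u * l.count u := by
  have := pr_count l u l.length
  rw [List.take_length] at this
  rw [this, mul_sum]
  refine sum_le_sum fun i _ => ?_
  split_ifs with h
  · rw [prAl_step h0 h, mul_one]; exact min_le_left _ _
  · simp

theorem prSl_sum [Fintype V] : ∑ u, prSl H l u = 1 - prAl H l l.length := by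
  have e : prAl H l 0 = 1 := by simp only [prAl, List.take_zero, List.map_nil, List.sum_nil, sub_zero, zero_le_one, sup_of_le_right]
  rw [← e, ← sum_range_sub' (prAl H l)]
  simp only [prSl]
  rw [sum_comm]
  refine sum_congr rfl fun i hi => ?_
  have hi' := mem_range.1 hi
  simp only [List.getElem?_eq_getElem hi', Option.some.injEq, sum_ite_eq, mem_univ, ↓ reduceIte]

omit [DecidableEq V] in
theorem prAl_end (h0 : ∀ u, 0 ≤ H u) (hu : u ∈ l) (h1 : H u = 1) : prAl H l l.length = 0 := by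
  have := List.single_le_sum (l := l.map H)
    (fun x hx => by obtain ⟨a, -, rfl⟩ := List.mem_map.1 hx; exact h0 a) (H u)
    (List.mem_map_of_mem hu)
  rw [prAl, List.take_length]
  exact max_eq_left (by linarith)

theorem pr_mid (h0 : ∀ u, 0 ≤ H u) :
    ∑ i ∈ range l.length, (prAl H l i - prAl H l (i + 1)) * (l.take i).count u ≤ prGl H l u := by
  have key : ∀ n, ∑ i ∈ range n, (prAl H l i - prAl H l (i + 1)) * (l.take i).count u +
      prAl H l n * (l.take n).count u ≤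
      ∑ i ∈ range n, if l[i]? = some u then prAl H l i else 0 := by
    intro n
    induction n with
    | zero => simp only [range_zero, sum_empty, List.take_zero, List.nodup_nil, List.count_nil, CharP.cast_eq_zero, mul_zero, add_zero, Std.le_refl]
    | succ n ih =>
      rw [sum_range_succ, sum_range_succ, pr_count l u (n + 1), sum_range_succ, ← pr_count]
      have := prAl_anti (l := l) (i := n) h0
      split_ifs <;> linarith
  have h1 := key l.length
  have h2 : 0 ≤ prAl H l l.length * (l.take l.length).count u :=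
    mul_nonneg prAl_nonneg (Nat.cast_nonneg _)
  rw [prGl]; linarith

omit [DecidableEq V] in
theorem prAl_pos (h : 0 < prAl H l i) : ((l.take i).map H).sum < 1 := by
  rw [prAl, lt_max_iff] at h
  rcases h with h | h <;> linarith

omit [DecidableEq V] in
theorem prAl_cont {X : Type} [TopologicalSpace X] {H : X → V → ℝ} (h : ∀ u, Continuous (H · u))
    (l : List V) (i : ℕ) : Continuous fun p => prAl (H p) l i :=
  continuous_const.max (continuous_const.sub (continuous_list_sum _ fun u _ => h u))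

theorem prGl_cont {X : Type} [TopologicalSpace X] {H : X → V → ℝ} (h : ∀ u, Continuous (H · u))
    (l : List V) (u : V) : Continuous fun p => prGl (H p) l u :=
  continuous_finsetSum _ fun i _ => by
    split_ifs; exacts [prAl_cont h l i, continuous_const]

theorem prSl_cont {X : Type} [TopologicalSpace X] {H : X → V → ℝ} (h : ∀ u, Continuous (H · u))
    (l : List V) (u : V) : Continuous fun p => prSl (H p) l u :=
  continuous_finsetSum _ fun i _ => by
    split_ifs; exacts [(prAl_cont h l i).sub (prAl_cont h l _), continuous_const]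

/-- The comparison function of scales. -/
noncomputable def prPh (q : ℕ) (r : ℝ) : ℝ := min (r ^ 4) (r ^ (2 * q))

theorem prPh_nonneg {q : ℕ} {r : ℝ} (h : 0 ≤ r) : 0 ≤ prPh q r :=
  le_min (by positivity) (by positivity)

theorem prPh_mono {q : ℕ} {r s : ℝ} (h : 0 ≤ r) (e : r ≤ s) : prPh q r ≤ prPh q s :=
  min_le_min (by gcongr) (by gcongr)

theorem prPh_big {q : ℕ} (hq : 2 ≤ q) {r : ℝ} (h : 1 ≤ r) : prPh q r = r ^ 4 :=
  min_eq_left (pow_le_pow_right₀ h (by omega))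

theorem pr_min {k a : ℝ} (k0 : 0 ≤ k) (k1 : k ≤ 1) : k * min 1 a ≤ min 1 (k * a) :=
  le_min ((mul_le_mul_of_nonneg_left (min_le_left _ _) k0).trans (by simpa using k1))
    (mul_le_mul_of_nonneg_left (min_le_right _ _) k0)

/-- The spreading estimate behind (S6). -/
theorem pr_co {ι : Type} (X : Finset ι) {q : ℕ} (hq : 8 ≤ q) (om G s : ι → ℝ) {ε w : ℝ}
    (ε0 : 0 < ε) (w0 : 0 < w) (o0 : ∀ x, 0 < om x) (G0 : ∀ x, 0 ≤ G x) (τ : ℝ → ℝ)
    (hτ : ∀ t, τ t = ∑ x ∈ X, prPh q (om x / t) * G x)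
    (hs : ∀ x ∈ X, min 1 (τ (om x) / ε) * G x ≤ s x) :
    w ^ q * min 1 (τ w / ε) * τ w / 16 ≤ ∑ x ∈ X, min 1 (om x / w) * om x ^ q * s x := by
  classical
  have τ0 : ∀ t, 0 < t → 0 ≤ τ t := fun t ht => by
    rw [hτ]; exact sum_nonneg fun x _ => mul_nonneg (prPh_nonneg (div_pos (o0 x) ht).le) (G0 x)
  have m0 : ∀ a : ℝ, 0 ≤ a → 0 ≤ min 1 (a / ε) := fun a ha => le_min zero_le_one (by positivity)
  set T : ℝ → ℝ := fun t => ∑ x ∈ X with t ≤ om x, om x ^ 4 * G x with hT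
  have t0 : ∀ x, 0 ≤ om x ^ 4 * G x := fun x => mul_nonneg (by positivity) (G0 x)
  have T0 : ∀ t, 0 ≤ T t := fun t => sum_nonneg fun x _ => t0 x
  have τT : ∀ t, 0 < t → ∑ x ∈ X with t ≤ om x, prPh q (om x / t) * G x = T t / t ^ 4 := by
    intro t ht
    rw [hT, sum_div]
    refine sum_congr rfl fun x hx => ?_
    rw [prPh_big (by omega) ((one_le_div ht).2 (mem_filter.1 hx).2), div_pow]; ring
  have τT' : ∀ t, 0 < t → T t / t ^ 4 ≤ τ t := fun t ht => by
    rw [← τT t ht, hτ]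
    exact sum_le_sum_of_subset_of_nonneg (filter_subset _ _) fun x _ _ =>
      mul_nonneg (prPh_nonneg (div_pos (o0 x) ht).le) (G0 x)
  set τf := ∑ x ∈ X with ¬ w ≤ om x, prPh q (om x / w) * G x with hf
  have split : τ w = T w / w ^ 4 + τf := by
    rw [← τT w w0, hτ, hf, sum_filter_add_sum_filter_not]
  have f0 : 0 ≤ τf := sum_nonneg fun x _ => mul_nonneg (prPh_nonneg (div_pos (o0 x) w0).le) (G0 x)
  have fine : w ^ q * min 1 (τ w / ε) * τf ≤
      ∑ x ∈ X with ¬ w ≤ om x, min 1 (om x / w) * om x ^ q * s x := by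
    rw [hf, mul_sum]
    refine sum_le_sum fun x hx => ?_
    obtain ⟨hx, lt⟩ := mem_filter.1 hx
    have lt := (not_le.1 lt).le
    have r0 := div_pos (o0 x) w0
    have r1 : om x / w ≤ 1 := (div_le_one w0).2 lt
    have h1 : τ w ≤ τ (om x) := by
      rw [hτ, hτ]
      exact sum_le_sum fun z _ => mul_le_mul_of_nonneg_right
        (prPh_mono (div_pos (o0 z) w0).le (div_le_div_of_nonneg_left (o0 z).le (o0 x) lt)) (G0 z)
    have h2 : min 1 (τ w / ε) * G x ≤ s x :=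
      (mul_le_mul_of_nonneg_right (min_le_min le_rfl (by gcongr)) (G0 x)).trans (hs x hx)
    have h3 : prPh q (om x / w) ≤ (om x / w) ^ (q + 1) :=
      (min_le_right _ _).trans (pow_le_pow_of_le_one r0.le r1 (by omega))
    have h4 : w ^ q * (om x / w) ^ (q + 1) = om x / w * om x ^ q := by
      rw [pow_succ, div_pow]; field_simp
    have h5 := m0 _ (τ0 w w0)
    have h6 := G0 x
    have h7 := o0 x
    rw [min_eq_right r1]
    calc _ = w ^ q * prPh q (om x / w) * (min 1 (τ w / ε) * G x) := by ring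
      _ ≤ w ^ q * (om x / w) ^ (q + 1) * (min 1 (τ w / ε) * G x) := by gcongr
      _ ≤ _ := by rw [h4]; gcongr
  set C := X.filter fun x => w ≤ om x with hC
  have half : T w / 2 ≤ ∑ x ∈ C with T w / 2 ≤ T (om x), om x ^ 4 * G x := by
    have e := sum_filter_add_sum_filter_not C (fun x => T w / 2 ≤ T (om x)) fun x => om x ^ 4 * G x
    have e' : ∑ x ∈ C, om x ^ 4 * G x = T w := rfl
    suffices ∑ x ∈ C with ¬ T w / 2 ≤ T (om x), om x ^ 4 * G x ≤ T w / 2 by linarith only [e, this]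
    rcases (C.filter fun x => ¬ T w / 2 ≤ T (om x)).eq_empty_or_nonempty with h | h
    · rw [h, sum_empty]; linarith only [T0 w]
    · obtain ⟨z, hz, mz⟩ := exists_min_image _ om h
      refine le_trans ?_ (not_le.1 (mem_filter.1 hz).2).le
      exact sum_le_sum_of_subset_of_nonneg (fun x hx => mem_filter.2
        ⟨(mem_filter.1 (mem_filter.1 hx).1).1, mz x hx⟩) fun x _ _ => t0 x
  set hc := min 1 (T w / w ^ 4 / ε) with hhc
  have hc0 : 0 ≤ hc := m0 _ (div_nonneg (T0 w) (by positivity))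
  obtain ⟨k, rfl⟩ := Nat.exists_eq_add_of_le hq
  have s0 : ∀ x ∈ X, 0 ≤ s x := fun x hx =>
    (mul_nonneg (m0 _ (τ0 _ (o0 x))) (G0 x)).trans (hs x hx)
  have coarse : w ^ (8 + k) * hc * (T w / w ^ 4) / 4 ≤
      ∑ x ∈ C, min 1 (om x / w) * om x ^ (8 + k) * s x := by
    calc _ = w ^ (4 + k) * hc / 2 * (T w / 2) := by field_simp; ring
      _ ≤ w ^ (4 + k) * hc / 2 * ∑ x ∈ C with T w / 2 ≤ T (om x), om x ^ 4 * G x := by gcongr
      _ ≤ ∑ x ∈ C with T w / 2 ≤ T (om x), min 1 (om x / w) * om x ^ (8 + k) * s x := by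
        rw [mul_sum]
        refine sum_le_sum fun x hx => ?_
        obtain ⟨hx, a⟩ := mem_filter.1 hx
        obtain ⟨hx, le⟩ := mem_filter.1 hx
        have h7 := o0 x
        have h6 := G0 x
        have k1 : (w / om x) ^ 4 ≤ 1 := pow_le_one₀ (by positivity) ((div_le_one h7).2 le)
        have h1 : (w / om x) ^ 4 / 2 * hc ≤ min 1 (τ (om x) / ε) := by
          refine (pr_min (by positivity) (by linarith only [k1])).trans (min_le_min le_rfl ?_)
          calc _ = T w / 2 / om x ^ 4 / ε := by field_simp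
            _ ≤ T (om x) / om x ^ 4 / ε := by gcongr
            _ ≤ _ := by gcongr; exact τT' _ h7
        have h2 : (w / om x) ^ 4 / 2 * hc * G x ≤ s x :=
          (mul_le_mul_of_nonneg_right h1 h6).trans (hs x hx)
        rw [min_eq_left ((one_le_div w0).2 le), one_mul]
        calc _ = w ^ k * (w ^ 4 * hc / 2 * om x ^ 4 * G x) := by ring
          _ ≤ om x ^ k * (w ^ 4 * hc / 2 * om x ^ 4 * G x) := by gcongr
          _ = om x ^ (8 + k) * ((w / om x) ^ 4 / 2 * hc * G x) := by field_simp; ring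
          _ ≤ _ := by gcongr
      _ ≤ _ := sum_le_sum_of_subset_of_nonneg (filter_subset _ _) fun x hx _ =>
        mul_nonneg (mul_nonneg (le_min zero_le_one (div_pos (o0 x) w0).le) (pow_pos (o0 x) _).le)
          (s0 x (mem_filter.1 hx).1)
  rw [← sum_filter_add_sum_filter_not X fun x => w ≤ om x]
  have h5 := m0 _ (τ0 w w0)
  have c0 : 0 ≤ T w / w ^ 4 := div_nonneg (T0 w) (by positivity)
  have wq : 0 < w ^ (8 + k) := by positivity
  suffices min 1 (τ w / ε) * τ w / 16 ≤ hc * (T w / w ^ 4) / 4 + min 1 (τ w / ε) * τf by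
    have := mul_le_mul_of_nonneg_left this wq.le
    linarith only [fine, coarse, this]
  rcases le_total (τ w / 2) τf with h | h
  · have := mul_le_mul_of_nonneg_left h h5
    have := mul_nonneg hc0 c0
    have := mul_nonneg h5 (τ0 w w0)
    linarith
  · have h1 : τ w / 2 ≤ T w / w ^ 4 := by linarith only [split, h]
    have h2 : 1 / 2 * min 1 (τ w / ε) ≤ hc := by
      refine (pr_min (by norm_num) (by norm_num)).trans (min_le_min le_rfl ?_)
      calc _ = τ w / 2 / ε := by ring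
        _ ≤ _ := by gcongr
    have := mul_le_mul h2 h1 (by linarith only [split, f0, c0]) hc0
    have := mul_nonneg h5 f0
    linarith

end Pool.Agent.MP_114209_co.H79

namespace Pool.Agent.MP_114209_co.H79

open Finset

variable {V Γ : Type} [Fintype V] [DecidableEq V] [Fintype Γ]

/-- The data of the process. -/
structure PrD (V Γ : Type) where
  A : Finset V
  sr : Γ → V
  wk : Γ → List V
  g : Γ → ℝ
  μ : V → ℝ
  q : ℕ
  wc : ℝ
  w0 : ℝ
  ε : ℝ

namespace PrD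

variable (P : PrD V Γ)

noncomputable def HH (h : V → V → ℝ) (x u : V) : ℝ := if u ∈ P.A then 1 else h x u
noncomputable def GG (h : V → V → ℝ) (x u : V) : ℝ :=
  ∑ γ with P.sr γ = x, P.g γ * prGl (P.HH h x) (P.wk γ) u
noncomputable def ss (h : V → V → ℝ) (x u : V) : ℝ :=
  ∑ γ with P.sr γ = x, P.g γ * prSl (P.HH h x) (P.wk γ) u
noncomputable def gg (x u : V) : ℝ := ∑ γ with P.sr γ = x, P.g γ * (P.wk γ).count u
noncomputable def aa (t : ℝ) : ℝ := max 0 (min 1 (2 * t / P.wc - 1))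
noncomputable def NN (om : V → ℝ) (h : V → V → ℝ) (x : V) : ℝ :=
  max (1 / 2) (∑ u, (1 - P.aa (om u)) * P.ss h x u)
noncomputable def QQ (om : V → ℝ) (h : V → V → ℝ) (x u : V) : ℝ :=
  if x ∈ P.A then 0 else (1 - om x) * (1 - P.aa (om u)) * P.ss h x u / P.NN om h x
noncomputable def tau (om : V → ℝ) (h : V → V → ℝ) (t : ℝ) (u : V) : ℝ :=
  ∑ x ∈ P.Aᶜ, prPh P.q (om x / t) * P.GG h x u

theorem aa0 (t : ℝ) : 0 ≤ P.aa t := le_max_left _ _
theorem aa1 (t : ℝ) : P.aa t ≤ 1 := max_le zero_le_one (min_le_left _ _)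
theorem NN0 (om : V → ℝ) (h : V → V → ℝ) (x : V) : 0 < P.NN om h x :=
  lt_of_lt_of_le (by norm_num) (le_max_left _ _)

variable {P} {om : V → ℝ} {h : V → V → ℝ} {x u : V}

omit [Fintype V] [Fintype Γ] in
theorem HH0 (h0 : ∀ x u, 0 ≤ h x u) (x u : V) : 0 ≤ P.HH h x u := by
  unfold HH; split_ifs; exacts [zero_le_one, h0 x u]

omit [Fintype V] [Fintype Γ] in
theorem HH1 (h1 : ∀ x u, h x u ≤ 1) (x u : V) : P.HH h x u ≤ 1 := by
  unfold HH; split_ifs; exacts [le_rfl, h1 x u]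

omit [Fintype V] in
theorem GG0 (g0 : ∀ γ, 0 ≤ P.g γ) (x u : V) : 0 ≤ P.GG h x u :=
  sum_nonneg fun γ _ => mul_nonneg (g0 γ) prGl_nonneg

omit [Fintype V] in
theorem ss0 (g0 : ∀ γ, 0 ≤ P.g γ) (h0 : ∀ x u, 0 ≤ h x u) (x u : V) : 0 ≤ P.ss h x u :=
  sum_nonneg fun γ _ => mul_nonneg (g0 γ) (prSl_nonneg (HH0 h0 x))

theorem tau0 (g0 : ∀ γ, 0 ≤ P.g γ) (o0 : ∀ x, 0 < om x) {t : ℝ} (t0 : 0 < t) (u : V) :
    0 ≤ P.tau om h t u :=
  sum_nonneg fun x _ => mul_nonneg (prPh_nonneg (div_pos (o0 x) t0).le) (GG0 g0 x u)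

theorem QQ0 (g0 : ∀ γ, 0 ≤ P.g γ) (h0 : ∀ x u, 0 ≤ h x u) (o1 : ∀ x, om x ≤ 1) (x u : V) :
    0 ≤ P.QQ om h x u := by
  unfold QQ; split_ifs
  · exact le_rfl
  · exact div_nonneg (mul_nonneg (mul_nonneg (sub_nonneg.2 (o1 x)) (sub_nonneg.2 (P.aa1 _)))
      (ss0 g0 h0 x u)) (P.NN0 om h x).le

/-- The fixed point. -/
theorem fix (g0 : ∀ γ, 0 ≤ P.g γ) (w00 : 0 < P.w0) (w0c : P.w0 ≤ P.wc) (wc1 : P.wc ≤ 1)
    (ε0 : 0 < P.ε) : ∃ (om : V → ℝ) (h : V → V → ℝ),
    (∀ x u, h x u = min 1 (P.tau om h (om x) u / P.ε)) ∧ ∀ u, om u = max P.w0 (min P.wc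
      (om u + P.μ u + P.w0 ^ P.q + ∑ x, om x ^ P.q * P.QQ om h x u - om u ^ P.q)) := by
  let o : (V → ℝ) × (V → V → ℝ) → V → ℝ := fun p u => max P.w0 (min P.wc (p.1 u))
  let k : (V → ℝ) × (V → V → ℝ) → V → V → ℝ := fun p x u => max 0 (min 1 (p.2 x u))
  have o0 : ∀ p u, 0 < o p u := fun p u => w00.trans_le (le_max_left _ _)
  have co : ∀ u, Continuous (o · u) := fun u => by fun_prop
  have ck : ∀ x u, Continuous (k · x u) := fun x u => by fun_prop
  have cH : ∀ x u, Continuous fun p => P.HH (k p) x u := fun x u => by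
    unfold HH; split_ifs; exacts [continuous_const, ck x u]
  have cG : ∀ x u, Continuous fun p => P.GG (k p) x u := fun x u =>
    continuous_finsetSum _ fun γ _ => continuous_const.mul (prGl_cont (cH x) _ _)
  have cs : ∀ x u, Continuous fun p => P.ss (k p) x u := fun x u =>
    continuous_finsetSum _ fun γ _ => continuous_const.mul (prSl_cont (cH x) _ _)
  have ca : ∀ u, Continuous fun p => P.aa (o p u) := fun u =>
    continuous_const.max (continuous_const.min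
      (((continuous_const.mul (co u)).div_const _).sub continuous_const))
  have cN : ∀ x, Continuous fun p => P.NN (o p) (k p) x := fun x =>
    continuous_const.max (continuous_finsetSum _ fun u _ =>
      (continuous_const.sub (ca u)).mul (cs x u))
  have cQ : ∀ x u, Continuous fun p => P.QQ (o p) (k p) x u := fun x u => by
    unfold QQ; split_ifs
    · exact continuous_const
    · exact (((continuous_const.sub (co x)).mul (continuous_const.sub (ca u))).mul (cs x u)).div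
        (cN x) fun p => (P.NN0 _ _ _).ne'
  have ct : ∀ x u, Continuous fun p => P.tau (o p) (k p) (o p x) u := fun x u =>
    continuous_finsetSum _ fun z _ => by
      have := (co z).div (co x) fun p => (o0 p x).ne'
      exact ((this.pow 4).min (this.pow _)).mul (cG z u)
  obtain ⟨p, hp⟩ := MP_d9ba76_lc.exists_fixed_of_bdd (U := (V → ℝ) × (V → V → ℝ))
    (fun p => (fun u => max P.w0 (min P.wc (o p u + P.μ u + P.w0 ^ P.q +
      ∑ x, o p x ^ P.q * P.QQ (o p) (k p) x u - o p u ^ P.q)),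
      fun x u => min 1 (P.tau (o p) (k p) (o p x) u / P.ε)))
    ((continuous_pi fun u => continuous_const.max (continuous_const.min
      (((((co u).add continuous_const).add continuous_const).add
        (continuous_finsetSum _ fun x _ => ((co x).pow _).mul (cQ x u))).sub ((co u).pow _)))).prodMk
      (continuous_pi fun x => continuous_pi fun u => continuous_const.min ((ct x u).div_const _)))
    fun p => by
      rw [Prod.norm_def]
      refine max_le ((pi_norm_le_iff_of_nonneg zero_le_one).2 fun u => ?_)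
        ((pi_norm_le_iff_of_nonneg zero_le_one).2 fun x =>
          (pi_norm_le_iff_of_nonneg zero_le_one).2 fun u => ?_)
      · rw [Real.norm_of_nonneg (w00.le.trans (le_max_left _ _))]
        exact max_le (w0c.trans wc1) ((min_le_left _ _).trans wc1)
      · rw [Real.norm_of_nonneg (le_min zero_le_one (div_nonneg (tau0 g0 (o0 p) (o0 p x) u) ε0.le))]
        exact min_le_left _ _
  have h1 := fun u => congrFun (congrArg Prod.fst hp) u
  have h2 := fun x u => congrFun (congrFun (congrArg Prod.snd hp) x) u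
  simp only at h1 h2
  have e1 : o p = p.1 := funext fun u => by
    have a : P.w0 ≤ p.1 u := h1 u ▸ le_max_left _ _
    have b : p.1 u ≤ P.wc := h1 u ▸ max_le w0c (min_le_left _ _)
    simp only [o]; rw [min_eq_right b, max_eq_right a]
  have e2 : k p = p.2 := funext fun x => funext fun u => by
    have a : 0 ≤ p.2 x u :=
      h2 x u ▸ le_min zero_le_one (div_nonneg (tau0 g0 (o0 p) (o0 p x) u) ε0.le)
    have b : p.2 x u ≤ 1 := h2 x u ▸ min_le_left _ _
    simp only [k]; rw [min_eq_right b, max_eq_right a]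
  rw [e1, e2] at h1 h2
  exact ⟨p.1, p.2, fun x u => (h2 x u).symm, fun u => (h1 u).symm⟩

omit [Fintype V] in
theorem ss_ge (g0 : ∀ γ, 0 ≤ P.g γ) (h0 : ∀ x u, 0 ≤ h x u) (h1 : ∀ x u, h x u ≤ 1) (x u : V) :
    P.HH h x u * P.GG h x u ≤ P.ss h x u := by
  rw [GG, mul_sum]
  refine sum_le_sum fun γ _ => ?_
  rw [mul_left_comm]
  exact mul_le_mul_of_nonneg_left (prSl_ge (HH0 h0 x) (HH1 h1 x)) (g0 γ)

omit [Fintype V] in
theorem ss_le (g0 : ∀ γ, 0 ≤ P.g γ) (h0 : ∀ x u, 0 ≤ h x u) (x u : V) :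
    P.ss h x u ≤ P.HH h x u * P.gg x u := by
  rw [gg, mul_sum]
  refine sum_le_sum fun γ _ => ?_
  rw [mul_left_comm]
  exact mul_le_mul_of_nonneg_left (prSl_le (HH0 h0 x)) (g0 γ)

omit [Fintype V] in
theorem gg0 (g0 : ∀ γ, 0 ≤ P.g γ) (x u : V) : 0 ≤ P.gg x u :=
  sum_nonneg fun γ _ => mul_nonneg (g0 γ) (Nat.cast_nonneg _)

theorem ss_sum (g0 : ∀ γ, 0 ≤ P.g γ) (h0 : ∀ x u, 0 ≤ h x u) (g1 : ∑ γ with P.sr γ = x, P.g γ = 1)
    (gA : ∀ γ, 0 < P.g γ → P.sr γ = x → ∃ u ∈ P.wk γ, u ∈ P.A) : ∑ u, P.ss h x u = 1 := by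
  simp only [ss]
  rw [sum_comm, ← g1]
  refine sum_congr rfl fun γ hγ => ?_
  rw [← mul_sum, prSl_sum]
  rcases (g0 γ).eq_or_lt with e | e
  · rw [← e, zero_mul]
  · obtain ⟨u, hu, hA⟩ := gA γ e (mem_filter.1 hγ).2
    rw [prAl_end (HH0 h0 x) hu (if_pos hA), sub_zero, mul_one]

theorem QQ_row (hx : x ∉ P.A) : ∑ u, P.QQ om h x u =
    (1 - om x) * ((∑ u, (1 - P.aa (om u)) * P.ss h x u) / P.NN om h x) := by
  rw [sum_div, mul_sum]
  exact sum_congr rfl fun u _ => by rw [QQ, if_neg hx]; ring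

end PrD

end Pool.Agent.MP_114209_co.H79

namespace Pool.Agent.MP_114209_co.H79

open Finset

variable {V Γ : Type} [Fintype V] [DecidableEq V] [Fintype Γ]

namespace PrD

/-- The assumptions on the data. -/
structure Ok (P : PrD V Γ) (v M e0 : ℝ) : Prop where
  hq : 8 ≤ P.q
  g0 : ∀ γ, 0 ≤ P.g γ
  g1 : ∀ x ∉ P.A, ∑ γ with P.sr γ = x, P.g γ = 1
  gA : ∀ γ, 0 < P.g γ → P.sr γ ∉ P.A → ∃ u ∈ P.wk γ, u ∈ P.A
  gv : ∀ x ∉ P.A, ∑ u, P.gg x u ^ 2 ≤ 1 / v
  μ0 : ∀ u, 0 ≤ P.μ u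
  μ1 : ∑ u, P.μ u ≤ 1
  μc : ∀ u, P.μ u ≤ P.wc ^ P.q / 4
  w00 : 0 < P.w0
  w0c : P.w0 ≤ P.wc
  w0q : P.w0 ^ P.q ≤ P.wc ^ P.q / 4
  w0V : Fintype.card V * P.w0 ^ P.q ≤ 1
  wc2 : P.wc ≤ 1 / 2
  ε0 : 0 < P.ε
  hv : 8 * (2 / P.wc) ^ (P.q + 1) ≤ v
  M0 : 0 < M
  e1 : 1 / M ≤ e0
  e2 : 128 * M / (P.ε * v) ≤ e0
  e3 : 4 / v ≤ e0 ^ 2

/-- The fixed point equations. -/
structure Fx (P : PrD V Γ) (om : V → ℝ) (h : V → V → ℝ) : Prop where
  hh : ∀ x u, h x u = min 1 (P.tau om h (om x) u / P.ε)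
  oo : ∀ u, om u = max P.w0 (min P.wc
    (om u + P.μ u + P.w0 ^ P.q + ∑ x, om x ^ P.q * P.QQ om h x u - om u ^ P.q))

variable {P : PrD V Γ} {v M e0 : ℝ} {om : V → ℝ} {h : V → V → ℝ} {x u : V}
  (k : P.Ok v M e0) (f : P.Fx om h)

include f in
theorem Fx.lo (u : V) : P.w0 ≤ om u := f.oo u ▸ le_max_left _ _

include k f

theorem Fx.hi (u : V) : om u ≤ P.wc := f.oo u ▸ max_le k.w0c (min_le_left _ _)
theorem Fx.o0 (u : V) : 0 < om u := k.w00.trans_le (f.lo u)
theorem Fx.o2 (u : V) : om u ≤ 1 / 2 := (f.hi k u).trans k.wc2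
theorem Fx.o1 (u : V) : om u ≤ 1 := by linarith [f.o2 k u]
theorem Fx.h0 (x u : V) : 0 ≤ h x u :=
  f.hh x u ▸ le_min zero_le_one (div_nonneg (tau0 k.g0 (f.o0 k) (f.o0 k x) u) k.ε0.le)
omit k in
theorem Fx.h1 (x u : V) : h x u ≤ 1 := f.hh x u ▸ min_le_left _ _
theorem Fx.Q0 (x u : V) : 0 ≤ P.QQ om h x u := QQ0 k.g0 (f.h0 k) (f.o1 k) x u

theorem Fx.bal (u : V) : om u ^ P.q = P.μ u + P.w0 ^ P.q + ∑ x, om x ^ P.q * P.QQ om h x u := by
  have wc0 := k.w00.trans_le k.w0c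
  have s0 : 0 ≤ ∑ x, om x ^ P.q * P.QQ om h x u :=
    sum_nonneg fun x _ => mul_nonneg (pow_pos (f.o0 k x) _).le (f.Q0 k x u)
  have e := f.oo u
  rcases lt_trichotomy (om u ^ P.q) (P.μ u + P.w0 ^ P.q + ∑ x, om x ^ P.q * P.QQ om h x u)
    with c | c | c
  · exfalso
    rcases (f.hi k u).eq_or_lt with d | d
    · have a : P.aa (om u) = 1 := by
        rw [d, aa, mul_div_assoc, div_self wc0.ne']; norm_num
      have z : ∑ x, om x ^ P.q * P.QQ om h x u = 0 :=
        sum_eq_zero fun x _ => by simp [QQ, a]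
      rw [z, d] at c
      linarith only [k.μc u, k.w0q, pow_pos wc0 P.q, c]
    · exact absurd e (lt_max_of_lt_right (lt_min d (by linarith))).ne
  · exact c
  · exfalso
    rcases (f.lo u).eq_or_lt with d | d
    · rw [← d] at c; linarith [k.μ0 u]
    · exact absurd e (max_lt d (min_lt_of_right_lt (by linarith))).ne'

theorem Fx.row_le (x : V) : ∑ u, P.QQ om h x u ≤ 1 - om x := by
  by_cases hx : x ∈ P.A
  · simp only [QQ, if_pos hx, sum_const_zero]; linarith [f.o1 k x]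
  · rw [QQ_row hx]
    exact mul_le_of_le_one_right (by linarith [f.o1 k x])
      ((div_le_one (P.NN0 _ _ _)).2 (le_max_right _ _))

theorem Fx.s4 : ∑ u, om u ^ (P.q + 1) ≤ 2 := by
  have e : ∑ u, om u ^ P.q = _ := sum_congr rfl fun u _ => f.bal k u
  rw [sum_add_distrib, sum_add_distrib, sum_comm, sum_const, card_univ, nsmul_eq_mul] at e
  have h1 : ∑ x, ∑ u, om x ^ P.q * P.QQ om h x u ≤ ∑ x, (om x ^ P.q - om x ^ (P.q + 1)) :=
    sum_le_sum fun x _ => by
      rw [← mul_sum, pow_succ, ← mul_one_sub]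
      exact mul_le_mul_of_nonneg_left (f.row_le k x) (pow_pos (f.o0 k x) _).le
  rw [sum_sub_distrib] at h1
  linarith [k.μ1, k.w0V]

omit f in
theorem Ok.v0 : 0 < v := by
  have wc0 := k.w00.trans_le k.w0c
  exact lt_of_lt_of_le (by positivity) k.hv

theorem Fx.sg (x u : V) : P.ss h x u ≤ P.gg x u :=
  (ss_le k.g0 (f.h0 k) x u).trans (mul_le_of_le_one_left (gg0 k.g0 x u) (HH1 f.h1 x u))

theorem Fx.ssum (hx : x ∉ P.A) : ∑ u, P.ss h x u = 1 :=
  ss_sum k.g0 (f.h0 k) (k.g1 x hx) fun γ a b => k.gA γ a (b ▸ hx)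

theorem Fx.half (hx : x ∉ P.A) : 1 / 2 ≤ ∑ u, (1 - P.aa (om u)) * P.ss h x u := by
  have wc0 := k.w00.trans_le k.w0c
  have v0 := k.v0
  set Z := univ.filter fun u => P.wc / 2 < om u with hZ
  have c1 : (Z.card : ℝ) * (P.wc / 2) ^ (P.q + 1) ≤ 2 := by
    rw [← nsmul_eq_mul]
    refine (card_nsmul_le_sum Z (fun u => om u ^ (P.q + 1)) _ fun u hu => ?_).trans
      (le_trans (sum_le_sum_of_subset_of_nonneg (subset_univ _) fun u _ _ =>
        (pow_pos (f.o0 k u) _).le) (f.s4 k))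
    exact pow_le_pow_left₀ (by positivity) (mem_filter.1 hu).2.le _
  have c2 : (Z.card : ℝ) ≤ v / 4 := by
    have e : (P.wc / 2) ^ (P.q + 1) * (2 / P.wc) ^ (P.q + 1) = 1 := by
      rw [← mul_pow, div_mul_div_cancel₀ two_ne_zero, div_self wc0.ne', one_pow]
    have := mul_le_mul_of_nonneg_right c1 (by positivity : 0 ≤ (2 / P.wc) ^ (P.q + 1))
    rw [mul_assoc, e] at this
    linarith only [k.hv, this]
  have c3 : (∑ u ∈ Z, P.gg x u) ^ 2 ≤ (1 / 2) ^ 2 :=
    calc _ ≤ Z.card * ∑ u ∈ Z, P.gg x u ^ 2 := sq_sum_le_card_mul_sum_sq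
      _ ≤ v / 4 * (1 / v) := mul_le_mul c2 ((sum_le_sum_of_subset_of_nonneg (subset_univ _)
        fun u _ _ => sq_nonneg _).trans (k.gv x hx)) (sum_nonneg fun _ _ => sq_nonneg _)
        (by positivity)
      _ = _ := by field_simp; norm_num
  have c4 := (abs_le_of_sq_le_sq' c3 (by norm_num)).2
  have c5 : ∑ u, P.aa (om u) * P.ss h x u ≤ ∑ u ∈ Z, P.gg x u := by
    rw [hZ, sum_filter]
    refine sum_le_sum fun u _ => ?_
    split_ifs with c
    · exact (mul_le_of_le_one_left (ss0 k.g0 (f.h0 k) x u) (P.aa1 _)).trans (f.sg k x u)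
    · have : 2 * om u / P.wc ≤ 1 := (div_le_one wc0).2 (by linarith only [c])
      rw [aa, max_eq_left (min_le_of_right_le (by linarith only [this])), zero_mul]
  simp only [one_sub_mul, sum_sub_distrib, f.ssum k hx]
  linarith only [c4, c5]

theorem Fx.row (hx : x ∉ P.A) : ∑ u, P.QQ om h x u = 1 - om x := by
  have := f.half k hx
  rw [QQ_row hx, NN, max_eq_right this, div_self (by linarith), mul_one]

theorem Fx.Qle (x u : V) : P.QQ om h x u ≤ 2 * ((1 - P.aa (om u)) * P.ss h x u) := by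
  have a := mul_nonneg (sub_nonneg.2 (P.aa1 (om u))) (ss0 k.g0 (f.h0 k) x u)
  unfold QQ; split_ifs
  · linarith
  · rw [div_le_iff₀ (P.NN0 _ _ _), mul_assoc]
    have : 1 / 2 ≤ P.NN om h x := le_max_left _ _
    nlinarith only [f.o0 k x, a, this]

theorem Fx.Qge (hx : x ∉ P.A) (u : V) : (1 - P.aa (om u)) * P.ss h x u / 2 ≤ P.QQ om h x u := by
  have a := mul_nonneg (sub_nonneg.2 (P.aa1 (om u))) (ss0 k.g0 (f.h0 k) x u)
  have n : P.NN om h x ≤ 1 := max_le (by norm_num) (le_trans (sum_le_sum fun u _ =>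
    mul_le_of_le_one_left (ss0 k.g0 (f.h0 k) x u) (by linarith [P.aa0 (om u)])) (f.ssum k hx).le)
  rw [QQ, if_neg hx, le_div_iff₀ (P.NN0 _ _ _), mul_assoc]
  nlinarith only [f.o2 k x, a, n]

omit f in
theorem Ok.ep : 0 < e0 := lt_of_lt_of_le (one_div_pos.2 k.M0) k.e1

theorem Fx.Qe (x u : V) : P.QQ om h x u ≤ e0 := by
  by_cases hx : x ∈ P.A
  · rw [QQ, if_pos hx]; exact k.ep.le
  have a : P.gg x u ^ 2 ≤ 1 / v :=
    (single_le_sum (fun u _ => sq_nonneg (P.gg x u)) (mem_univ u)).trans (k.gv x hx)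
  have b : (2 * P.gg x u) ^ 2 ≤ e0 ^ 2 := by
    have := k.e3
    rw [show 4 / v = 4 * (1 / v) by ring] at this
    linarith
  have c := (abs_le_of_sq_le_sq' b k.ep.le).2
  have d := mul_le_of_le_one_left (ss0 k.g0 (f.h0 k) x u) (by linarith only [P.aa0 (om u)] :
    1 - P.aa (om u) ≤ 1)
  linarith [f.Qle k x u, f.sg k x u]

theorem Fx.s6 : ∃ pr : V → V → ℝ, (∀ x u, 0 ≤ pr x u) ∧ (∀ x, ∑ u, pr x u ≤ e0) ∧
    ∀ x, ∀ u ∉ P.A, om x ^ P.q * P.QQ om h x u ≤ om x ^ P.q * pr x u +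
      e0 * ∑ z, min 1 (om z / om x) * om z ^ P.q * P.QQ om h z u := by
  have ε0 := k.ε0
  have M0 := k.M0
  have t0 : ∀ x z u, 0 ≤ min 1 (om z / om x) * om z ^ P.q * P.QQ om h z u := fun x z u =>
    mul_nonneg (mul_nonneg (le_min zero_le_one (div_pos (f.o0 k z) (f.o0 k x)).le)
      (pow_pos (f.o0 k z) _).le) (f.Q0 k z u)
  refine ⟨fun x u => if x ∈ P.A then 0 else 128 * M / P.ε * P.gg x u ^ 2, fun x u => ?_,
    fun x => ?_, fun x u hu => ?_⟩
  · dsimp only; split_ifs <;> positivity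
  · by_cases hx : x ∈ P.A
    · simpa only [hx, ↓ reduceIte, sum_const_zero] using k.ep.le
    · simp only [if_neg hx, ← mul_sum]
      refine (mul_le_mul_of_nonneg_left (k.gv x hx) (by positivity)).trans (le_trans ?_ k.e2)
      rw [div_mul_div_comm, mul_one]
  have S0 : 0 ≤ ∑ z, min 1 (om z / om x) * om z ^ P.q * P.QQ om h z u :=
    sum_nonneg fun z _ => t0 x z u
  have S1 := mul_nonneg k.ep.le S0
  by_cases hx : x ∈ P.A
  · simpa only [QQ, hx, ↓ reduceIte, mul_zero, mul_ite, zero_add, ge_iff_le] using S1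
  simp only [if_neg hx]
  have L0 := pow_pos (f.o0 k x) P.q
  have a0 := sub_nonneg.2 (P.aa1 (om u))
  have a1 : 1 - P.aa (om u) ≤ 1 := by linarith only [P.aa0 (om u)]
  have g0 := gg0 k.g0 x u
  have h0 := f.h0 k x u
  have HA : ∀ z, P.HH h z u = h z u := fun z => if_neg hu
  have Q1 : P.QQ om h x u ≤ 2 * ((1 - P.aa (om u)) * (h x u * P.gg x u)) :=
    (f.Qle k x u).trans (by gcongr; exact HA x ▸ ss_le k.g0 (f.h0 k) x u)
  rcases le_total (64 * M * P.gg x u) (P.tau om h (om x) u) with c | c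
  · have co := pr_co P.Aᶜ k.hq om (P.GG h · u) (P.ss h · u) ε0 (f.o0 k x) (f.o0 k)
      (GG0 k.g0 · u) (P.tau om h · u) (fun _ => rfl) fun z _ => by
        rw [← f.hh, ← HA]; exact ss_ge k.g0 (f.h0 k) f.h1 z u
    rw [← f.hh] at co
    have c2 : (1 - P.aa (om u)) / 2 * ∑ z ∈ P.Aᶜ, min 1 (om z / om x) * om z ^ P.q * P.ss h z u ≤
        ∑ z, min 1 (om z / om x) * om z ^ P.q * P.QQ om h z u := by
      rw [mul_sum]
      refine (sum_le_sum fun z hz => ?_).trans
        (sum_le_sum_of_subset_of_nonneg (subset_univ _) fun z _ _ => t0 x z u)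
      have := mul_le_mul_of_nonneg_left (f.Qge k (mem_compl.1 hz) u)
        (mul_nonneg (le_min zero_le_one (div_pos (f.o0 k z) (f.o0 k x)).le)
          (pow_pos (f.o0 k z) P.q).le)
      linarith only [this]
    have c3 : 0 ≤ om x ^ P.q * (128 * M / P.ε * P.gg x u ^ 2) := by positivity
    suffices om x ^ P.q * P.QQ om h x u ≤
      e0 * ∑ z, min 1 (om z / om x) * om z ^ P.q * P.QQ om h z u by linarith only [c3, this]
    calc _ ≤ om x ^ P.q * (2 * ((1 - P.aa (om u)) * (h x u * P.gg x u))) := by gcongr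
      _ = 1 / M * ((1 - P.aa (om u)) / 2 * (om x ^ P.q * h x u * (64 * M * P.gg x u) / 16)) := by
        field_simp; ring
      _ ≤ 1 / M * ((1 - P.aa (om u)) / 2 * (om x ^ P.q * h x u * P.tau om h (om x) u / 16)) := by
        gcongr
      _ ≤ 1 / M * ∑ z, min 1 (om z / om x) * om z ^ P.q * P.QQ om h z u := by
        gcongr; exact le_trans (by gcongr) c2
      _ ≤ _ := mul_le_mul_of_nonneg_right k.e1 S0
  · have c1 : h x u ≤ 64 * M * P.gg x u / P.ε :=
      f.hh x u ▸ (min_le_right _ _).trans (by gcongr)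
    suffices P.QQ om h x u ≤ 128 * M / P.ε * P.gg x u ^ 2 by
      linarith only [mul_le_mul_of_nonneg_left this L0.le, S1]
    calc _ ≤ _ := Q1
      _ ≤ 2 * (1 * (64 * M * P.gg x u / P.ε * P.gg x u)) := by gcongr
      _ = _ := by ring

end PrD

end Pool.Agent.MP_114209_co.H79

namespace Pool.Agent.MP_114209_co.H79

open Finset

variable {V Γ : Type} [Fintype V] [DecidableEq V] [Fintype Γ]

namespace PrD

variable (P : PrD V Γ)

noncomputable def cf (om : V → ℝ) (h : V → V → ℝ) (x t : V) : ℝ :=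
  if x ∈ P.A then 0 else (1 - om x) * (1 - P.aa (om t)) / P.NN om h x

/-- The weight of the label `(γ, i)` for the step from `x` to `t`. -/
noncomputable def wl (om : V → ℝ) (h : V → V → ℝ) (x t : V) (γ : Γ) (i : ℕ) : ℝ :=
  P.cf om h x t * (P.g γ * if (P.wk γ)[i]? = some t then
    prAl (P.HH h x) (P.wk γ) i - prAl (P.HH h x) (P.wk γ) (i + 1) else 0)

/-- The intensity of the middle vertices. -/
noncomputable def mm (om : V → ℝ) (h : V → V → ℝ) (x t u : V) : ℝ :=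
  ∑ γ with P.sr γ = x, ∑ i ∈ range (P.wk γ).length,
    P.wl om h x t γ i * ((P.wk γ).take i).count u

variable {P} {v M e0 : ℝ} {om : V → ℝ} {h : V → V → ℝ} {x t u : V}

theorem QQ_eq : P.QQ om h x t =
    ∑ γ with P.sr γ = x, ∑ i ∈ range (P.wk γ).length, P.wl om h x t γ i := by
  simp only [wl, ← mul_sum]
  unfold QQ cf
  split_ifs
  · rw [zero_mul]
  · rw [div_mul_eq_mul_div]; rfl

theorem pr_cnt (l : List V) (ψ : V → ℝ) : ∑ u, ψ u * l.count u = (l.map ψ).sum := by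
  induction l with
  | nil => simp only [List.nodup_nil, List.count_nil, CharP.cast_eq_zero, mul_zero, sum_const_zero, List.map_nil, List.sum_nil]
  | cons a l ih =>
    simp only [List.count_cons, Nat.cast_add, mul_add, sum_add_distrib, ih, List.map_cons,
      List.sum_cons]
    simp only [beq_iff_eq, Nat.cast_ite, Nat.cast_one, CharP.cast_eq_zero, mul_ite, mul_one, mul_zero, sum_ite_eq, mem_univ, ↓ reduceIte, add_comm]

theorem mm_sum (ψ : V → ℝ) : ∑ u, ψ u * P.mm om h x t u =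
    ∑ γ with P.sr γ = x, ∑ i ∈ range (P.wk γ).length,
      P.wl om h x t γ i * (((P.wk γ).take i).map ψ).sum := by
  simp only [mm, mul_sum, ← pr_cnt]
  rw [sum_comm]
  refine sum_congr rfl fun γ _ => ?_
  rw [sum_comm]
  exact sum_congr rfl fun i _ => sum_congr rfl fun u _ => by ring

variable (k : P.Ok v M e0) (f : P.Fx om h)
include k f

theorem Fx.cf0 (x t : V) : 0 ≤ P.cf om h x t := by
  unfold cf; split_ifs
  · exact le_rfl
  · exact div_nonneg (mul_nonneg (sub_nonneg.2 (f.o1 k x)) (sub_nonneg.2 (P.aa1 _)))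
      (P.NN0 _ _ _).le

theorem Fx.cf2 (x t : V) : P.cf om h x t ≤ 2 := by
  unfold cf; split_ifs
  · norm_num
  · rw [div_le_iff₀ (P.NN0 _ _ _)]
    have : 1 / 2 ≤ P.NN om h x := le_max_left _ _
    have := mul_le_one₀ (by linarith only [f.o0 k x] : 1 - om x ≤ 1) (sub_nonneg.2 (P.aa1 (om t)))
      (by linarith only [P.aa0 (om t)])
    linarith

theorem Fx.wl0 (x t : V) (γ : Γ) (i : ℕ) : 0 ≤ P.wl om h x t γ i :=
  mul_nonneg (f.cf0 k x t) (mul_nonneg (k.g0 γ) (by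
    split_ifs; exacts [sub_nonneg.2 (prAl_anti (HH0 (f.h0 k) x)), le_rfl]))

theorem Fx.mm0 (x t u : V) : 0 ≤ P.mm om h x t u :=
  sum_nonneg fun γ _ => sum_nonneg fun i _ => mul_nonneg (f.wl0 k x t γ i) (Nat.cast_nonneg _)

theorem Fx.wl_pos {γ : Γ} {i : ℕ} (p : 0 < P.wl om h x t γ i) :
    x ∉ P.A ∧ 0 < P.g γ ∧ (P.wk γ)[i]? = some t ∧ (∀ u ∈ (P.wk γ).take i, u ∉ P.A) ∧
      (((P.wk γ).take i).map (P.tau om h (om x))).sum ≤ P.ε := by
  have p' := p.ne'
  simp only [wl, ne_eq, mul_eq_zero, not_or, ite_eq_right_iff, not_forall] at p'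
  obtain ⟨a, b, c, d⟩ := p'
  have H0 := HH0 (P := P) (f.h0 k) x
  have e : 0 < prAl (P.HH h x) (P.wk γ) i := by
    rw [prAl_step H0 c] at d
    exact prAl_nonneg.lt_of_ne fun e => d (by rw [← e]; exact min_eq_right (H0 t))
  have s := prAl_pos e
  have lt : ∀ u ∈ (P.wk γ).take i, P.HH h x u < 1 := fun u hu =>
    (List.single_le_sum (fun x hx => by obtain ⟨a, -, rfl⟩ := List.mem_map.1 hx; exact H0 a) _
      (List.mem_map_of_mem hu)).trans_lt s
  have nA : ∀ u ∈ (P.wk γ).take i, u ∉ P.A := fun u hu hA => by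
    simpa [HH, hA] using lt u hu
  refine ⟨fun hx => a (if_pos hx), (k.g0 γ).lt_of_ne' b, c, nA, ?_⟩
  have : ((P.wk γ).take i).map (P.tau om h (om x)) =
      ((P.wk γ).take i).map fun u => P.ε * P.HH h x u := by
    refine List.map_congr_left fun u hu => ?_
    have := lt u hu
    rw [HH, if_neg (nA u hu), f.hh] at this ⊢
    rw [min_eq_right (le_of_lt (by simpa only [inf_lt_left, not_le] using this)), mul_div_cancel₀ _ k.ε0.ne']
  rw [this, List.sum_map_mul_left]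
  exact mul_le_of_le_one_right k.ε0.le s.le

theorem Fx.mm_row (x u : V) : ∑ t, P.mm om h x t u ≤ if x ∈ P.A then 0 else 2 * P.GG h x u := by
  split_ifs with hx
  · simp only [mm, wl, cf, hx, ↓ reduceIte, mul_ite, mul_zero, zero_mul, ite_self, sum_const_zero, Std.le_refl]
  simp only [mm]
  rw [sum_comm, GG, mul_sum]
  refine sum_le_sum fun γ _ => ?_
  rw [sum_comm]
  have H0 := HH0 (P := P) (f.h0 k) x
  refine le_trans ?_ (mul_le_mul_of_nonneg_left
    (mul_le_mul_of_nonneg_left (pr_mid H0) (k.g0 γ)) zero_le_two)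
  rw [mul_sum, mul_sum]
  refine sum_le_sum fun i hi => ?_
  have hi' := mem_range.1 hi
  have := k.g0 γ
  have := sub_nonneg.2 (prAl_anti (l := P.wk γ) (i := i) H0)
  simp only [wl, List.getElem?_eq_getElem hi', Option.some.injEq, mul_ite, mul_zero, ite_mul,
    zero_mul, sum_ite_eq, mem_univ, if_true]
  calc _ ≤ 2 * (P.g γ * (prAl (P.HH h x) (P.wk γ) i - prAl (P.HH h x) (P.wk γ) (i + 1))) *
        (((P.wk γ).take i).count u : ℝ) := by gcongr; exact f.cf2 k _ _
    _ = _ := by ring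

theorem Fx.s5 (x t : V) : ∑ u, (∑ z, prPh P.q (om z / om x) * ∑ t', P.mm om h z t' u) *
    P.mm om h x t u ≤ 2 * P.ε * P.QQ om h x t := by
  have a : ∀ u, ∑ z, prPh P.q (om z / om x) * ∑ t', P.mm om h z t' u ≤
      2 * P.tau om h (om x) u := fun u => by
    rw [tau, mul_sum, ← sum_filter_add_sum_filter_not univ (· ∈ P.A)]
    have p := fun z => prPh_nonneg (q := P.q) (div_pos (f.o0 k z) (f.o0 k x)).le
    have b : ∑ z with z ∈ P.A, prPh P.q (om z / om x) * ∑ t', P.mm om h z t' u ≤ 0 :=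
      sum_nonpos fun z hz => mul_nonpos_of_nonneg_of_nonpos (p z)
        ((f.mm_row k z u).trans (if_pos (mem_filter.1 hz).2).le)
    have c : ∑ z with z ∉ P.A, prPh P.q (om z / om x) * ∑ t', P.mm om h z t' u ≤
        ∑ z ∈ P.Aᶜ, 2 * (prPh P.q (om z / om x) * P.GG h z u) := by
      rw [show univ.filter (· ∉ P.A) = P.Aᶜ by ext; simp only [mem_filter, mem_univ, true_and, mem_compl]]
      refine sum_le_sum fun z hz => ?_
      rw [mul_left_comm]
      exact mul_le_mul_of_nonneg_left ((f.mm_row k z u).trans (if_neg (mem_compl.1 hz)).le) (p z)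
    linarith
  calc _ ≤ ∑ u, 2 * (P.tau om h (om x) u * P.mm om h x t u) := sum_le_sum fun u _ => by
        rw [← mul_assoc]; exact mul_le_mul_of_nonneg_right (a u) (f.mm0 k x t u)
    _ ≤ _ := by
      rw [← mul_sum, mm_sum, QQ_eq, mul_assoc]
      refine mul_le_mul_of_nonneg_left ?_ zero_le_two
      rw [mul_sum]
      refine sum_le_sum fun γ _ => ?_
      rw [mul_sum]
      refine sum_le_sum fun i _ => ?_
      rcases (f.wl0 k x t γ i).eq_or_lt with e | e
      · simp [← e]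
      · rw [mul_comm]; exact mul_le_mul_of_nonneg_right (f.wl_pos k e).2.2.2.2 e.le

theorem Fx.walk {D : V → V → Prop} (gD : ∀ γ, 0 < P.g γ → P.sr γ ∉ P.A →
      List.IsChain D (P.sr γ :: P.wk γ)) (p : 0 < P.QQ om h x t) (ψ : V → ℝ) :
    ∃ l : List V, List.IsChain D (x :: (l ++ [t])) ∧ (∀ u ∈ l, u ∉ P.A) ∧
      P.QQ om h x t * (l.map ψ).sum ≤ ∑ u, ψ u * P.mm om h x t u := by
  by_contra hc
  push Not at hc
  have key : ∀ γ ∈ univ.filter (P.sr · = x), ∀ i, 0 < P.wl om h x t γ i →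
      ∑ u, ψ u * P.mm om h x t u < P.QQ om h x t * (((P.wk γ).take i).map ψ).sum := by
    intro γ hγ i e
    obtain ⟨a, b, c, d, -⟩ := f.wl_pos k e
    have hγ := (mem_filter.1 hγ).2
    refine hc _ ?_ d
    have := (gD γ b (hγ ▸ a)).take (i + 2)
    rwa [hγ, List.take_succ_cons, List.take_add_one, c] at this
  set B := ∑ u, ψ u * P.mm om h x t u with hB
  have ex : ∃ γ ∈ univ.filter (P.sr · = x), ∃ i ∈ range (P.wk γ).length,
      0 < P.wl om h x t γ i := by
    by_contra n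
    push Not at n
    exact absurd p (not_lt.2 (QQ_eq.trans_le (sum_nonpos fun γ hγ => sum_nonpos (n γ hγ))))
  have le : ∀ γ ∈ univ.filter (P.sr · = x), ∀ i, P.wl om h x t γ i * B ≤
      P.wl om h x t γ i * (P.QQ om h x t * (((P.wk γ).take i).map ψ).sum) := fun γ hγ i => by
    rcases (f.wl0 k x t γ i).eq_or_lt with e | e
    · simp [← e]
    · exact mul_le_mul_of_nonneg_left (key γ hγ i e).le e.le
  obtain ⟨γ, hγ, i, hi, e⟩ := ex
  have := sum_lt_sum (fun γ hγ => sum_le_sum (s := range (P.wk γ).length) fun i _ => le γ hγ i)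
    ⟨γ, hγ, sum_lt_sum (fun i _ => le γ hγ i) ⟨i, hi, mul_lt_mul_of_pos_left (key γ hγ i e) e⟩⟩
  simp only [← sum_mul, mul_left_comm _ (P.QQ om h x t), ← mul_sum] at this
  rw [← QQ_eq, ← mm_sum] at this
  exact lt_irrefl _ this

end PrD

end Pool.Agent.MP_114209_co.H79

namespace Pool.Agent.MP_114209_co.H79

open Finset

variable {V : Type} [Fintype V] [DecidableEq V] {D : V → V → Prop}

theorem pr_fib (x : V) (F : V × {l : List V // l.Nodup} → ℝ) (G : List V → ℝ)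
    (h : ∀ l, F (x, l) = G l.1) : ∑ γ with γ.1 = x, F γ = ∑ l ∈ paths V, G l := by
  rw [sum_filter, Fintype.sum_prod_type, paths, sum_map]
  simp only [sum_comm (s := (univ : Finset V)), sum_ite_eq', mem_univ, if_true, h]
  rfl

theorem pr_sys {Γ : Type} [Fintype Γ] {P : PrD V Γ} {v M e0 : ℝ} (k : P.Ok v M e0) (hq : P.q = 40)
    (gD : ∀ γ, 0 < P.g γ → P.sr γ ∉ P.A → List.IsChain D (P.sr γ :: P.wk γ)) {y : ℝ}
    (hy : P.wc = 1 / y) : ∃ s : Sys D, s.A = P.A ∧ s.e = e0 ∧ s.eps = 2 * P.ε ∧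
      Extra s P.μ P.w0 y := by
  obtain ⟨om, h, f1, f2⟩ := PrD.fix k.g0 k.w00 k.w0c (by linarith only [k.wc2]) k.ε0
  have f : P.Fx om h := ⟨f1, f2⟩
  obtain ⟨pr, p0, p1, p2⟩ := f.s6 k
  have w0 := k.w00
  have e1 : ∀ u, P.w0 * (om u / P.w0) = om u := fun u => mul_div_cancel₀ _ w0.ne'
  have e2 : ∀ u z, om u / P.w0 / (om z / P.w0) = om u / om z := fun u z =>
    div_div_div_cancel_right₀ w0.ne' _ _
  have s3 : ∀ u, P.μ u + ∑ x, om x ^ 40 * P.QQ om h x u ≤ om u ^ 40 := fun u => by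
    have := f.bal k u
    rw [hq] at this
    linarith only [pow_pos w0 40, this]
  refine ⟨{ Q := P.QQ om h
            W := fun u => om u / P.w0
            Q0 := f.Q0 k
            W1 := fun u => (one_le_div w0).2 (f.lo u)
            row := fun x => by linarith only [f.row_le k x, f.o0 k x]
            col := fun u => ?_
            A := P.A
            m := P.mm om h
            pr := pr
            e := e0
            eps := 2 * P.ε
            e0 := k.ep.le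
            eps0 := by linarith only [k.ε0]
            m0 := f.mm0 k
            M1 := fun φ _ z t p => ?_
            M3 := fun z t => ?_
            rowA := fun x hx u => if_pos hx
            S6a := f.Qe k
            S6b := fun x u hu => ?_
            pr0 := p0
            S6c := p1 }, rfl, rfl, rfl, w0, fun u => ?_, fun x hx => ?_, fun u => ?_, ?_,
    fun z t p => ?_⟩
  · simp only [div_pow, div_mul_eq_mul_div, ← sum_div]
    exact div_le_div_of_nonneg_right (by linarith only [s3 u, k.μ0 u]) (pow_pos w0 40).le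
  · obtain ⟨l, a, -, b⟩ := f.walk k gD p φ
    exact ⟨l, a, by simpa only [ls, mul_comm] using b⟩
  · have := f.s5 k z t
    rw [hq] at this
    simp only [e2, mul_comm (P.mm om h z t _)]
    exact this
  · have := div_le_div_of_nonneg_right (p2 x u hu) (pow_pos w0 40).le
    rw [hq, add_div, mul_div_assoc e0, sum_div] at this
    simpa only [e2, div_pow, div_mul_eq_mul_div, mul_div_assoc, mul_assoc] using this
  · rw [e1, ← hy]; exact f.hi k u
  · rw [e1]; exact (f.row k hx).ge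
  · simpa only [e1] using s3 u
  · simp only [e1]
    have := f.s4 k
    rw [hq] at this
    exact le_trans (sum_le_sum_of_subset_of_nonneg (subset_univ _) fun u _ _ =>
      (pow_pos (f.o0 k u) _).le) this
  · obtain ⟨l, a, b, -⟩ := f.walk k gD p 0
    have hz : z ∉ P.A := fun hz => p.ne' (if_pos hz)
    rcases List.eq_nil_or_concat l with rfl | ⟨l, u, rfl⟩
    · exact ⟨z, hz, by simpa using a⟩
    · refine ⟨u, b u (by simp), ?_⟩
      rw [List.concat_eq_append, List.append_assoc, ← List.cons_append] at a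
      simpa using a.right_of_append

/-- Section 2: the process. -/
theorem proc_ex {S A : Finset V} (hSA : S ⊆ A) {v y : ℝ} (hy : 2 ≤ y) (hv : 2 ^ 45 * y ^ 41 ≤ v)
    (flow : ∀ x ∉ S, ∃ g, IsFlow D x S v g) {μ : V → ℝ} (μ0 : ∀ u, 0 ≤ μ u) (μ1 : ∑ u, μ u ≤ 1)
    (μc : ∀ u, μ u ≤ 1 / (4 * y ^ 40)) :
    ∃ (s : Sys D) (w0 : ℝ), s.A = A ∧ s.e = 1 / y ^ 12 ∧ s.eps = 2 / y ^ 9 ∧ Extra s μ w0 y := by
  choose! G hG using flow
  have y0 : 0 < y := by linarith
  have y1 : 1 ≤ y := by linarith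
  have v0 : 0 < v := lt_of_lt_of_le (by positivity) hv
  have nS : ∀ x ∉ A, x ∉ S := fun x hx h => hx (hSA h)
  obtain ⟨n, hn⟩ : ∃ n : ℝ, n = (Fintype.card V : ℝ) := ⟨_, rfl⟩
  have n0 : 0 ≤ n := hn ▸ Nat.cast_nonneg _
  let P : PrD V (V × {l : List V // l.Nodup}) :=
    ⟨A, Prod.fst, fun γ => γ.2.1, fun γ => if γ.1 ∈ S then 0 else G γ.1 γ.2.1, μ, 40, 1 / y,
      1 / (2 * y * (n + 1)), 1 / y ^ 9⟩
  have wk : ∀ γ, 0 < P.g γ → P.sr γ ∉ P.A → Wk D S γ.1 γ.2.1 := fun γ a b => by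
    have c := nS _ b
    exact ((hG _ c).2.1 _ (by simpa only [P, if_neg c] using a.ne')).2
  have wc : 1 / (2 * y * (n + 1)) ≤ 1 / y / 2 := by
    rw [div_div]; exact one_div_le_one_div_of_le (by positivity) (by nlinarith only [hy, hn])
  have pw : ∀ j ≤ 41, y ^ j ≤ y ^ 41 := fun j hj => pow_le_pow_right₀ y1 hj
  have k : P.Ok v (y ^ 12) (1 / y ^ 12) :=
    { hq := by norm_num [P]
      g0 := fun γ => by
        simp only [P]; split_ifs with c; exacts [le_rfl, (hG _ c).1 _]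
      g1 := fun x hx => (pr_fib x _ (G x) fun l => if_neg (nS x hx)).trans (hG x (nS x hx)).2.2.1
      gA := fun γ a b => by
        have c := (wk γ a b).2
        refine ⟨_, ?_, hSA c⟩
        rcases e : γ.2.1 with _ | ⟨z, l⟩
        · rw [e] at c; exact absurd c (nS _ b)
        · simp only [P, e]; rw [List.getLastD_cons]; exact List.getLastD_mem_cons
      gv := fun x hx => by
        refine le_trans (le_of_eq (sum_congr rfl fun u _ => ?_)) (hG x (nS x hx)).2.2.2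
        congr 1
        exact pr_fib x _ _ fun l => by simp only [P, if_neg (nS x hx), cnt]
      μ0 := μ0
      μ1 := μ1
      μc := fun u => (μc u).trans_eq (by simp only [P]; field_simp)
      w00 := by simp only [P]; positivity
      w0c := wc.trans (half_le_self (by positivity))
      w0q := (pow_le_pow_left₀ (by positivity) wc 40).trans (by
        rw [div_pow (1 / y)]
        exact div_le_div_of_nonneg_left (by positivity) (by norm_num) (by norm_num))
      w0V := by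
        have a : 1 / (2 * y * (n + 1)) ≤ 1 / (n + 1) :=
          one_div_le_one_div_of_le (by positivity) (by nlinarith only [hy, hn])
        have b : 1 / (n + 1) ≤ 1 := (div_le_one (by positivity)).2 (by linarith only [hn])
        have c := pow_le_of_le_one (by positivity) (a.trans b) (by norm_num : 40 ≠ 0)
        rw [← hn]
        refine (mul_le_mul_of_nonneg_left (c.trans a) n0).trans ?_
        rw [mul_one_div, div_le_one (by positivity)]; linarith only []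
      wc2 := one_div_le_one_div_of_le two_pos hy
      ε0 := by simp only [P]; positivity
      hv := le_trans (by
        simp only [P, div_div_eq_mul_div, div_one, mul_pow, Nat.reduceAdd]
        linarith only [pow_pos y0 41]) hv
      M0 := by positivity
      e1 := le_rfl
      e2 := by
        simp only [P]
        rw [div_le_div_iff₀ (by positivity) (by positivity), one_mul, one_div_mul_eq_div,
          le_div_iff₀ (by positivity)]
        linarith only [pw 33 (by norm_num), hv, v0]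
      e3 := by
        rw [div_pow, one_pow, ← pow_mul, div_le_div_iff₀ v0 (by positivity), show 12 * 2 = 24 from rfl]
        linarith only [pw 24 (by norm_num), hv, v0] }
  obtain ⟨s, a, b, c, d⟩ := pr_sys (D := D) k rfl (fun γ a b => (wk γ a b).1) rfl
  exact ⟨s, _, a, b, c.trans (by simp only [P]; ring), d⟩

end Pool.Agent.MP_114209_co.H79

end

-- part MP_114209_co.H79.Main
section

/-! Section 5, first part: weighted costs of the paths that start with `μ` and end at `t`. -/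

namespace Pool.Agent.MP_114209_co.H79

open Finset

variable {V : Type} [Fintype V]

/-- maximum principle for an excessive measure -/
theorem maxp {Q : V → V → ℝ} {μ lam T h : V → ℝ} (hT : ∀ c, 0 ≤ T c) (hl : ∀ c, 0 ≤ lam c)
    (hS : ∀ u, μ u + ∑ x, lam x * Q x u ≤ lam u) (hr : ∀ c, T c ≤ h c + ∑ z, Q c z * T z) :
    ∑ c, μ c * T c ≤ ∑ c, lam c * h c := by
  have h1 : ∑ c, (μ c + ∑ x, lam x * Q x c) * T c ≤ ∑ c, lam c * T c :=
    sum_le_sum fun c _ => mul_le_mul_of_nonneg_right (hS c) (hT c)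
  have h2 : ∑ c, lam c * T c ≤ ∑ c, lam c * (h c + ∑ z, Q c z * T z) :=
    sum_le_sum fun c _ => mul_le_mul_of_nonneg_left (hr c) (hl c)
  have h3 : ∑ c, (∑ x, lam x * Q x c) * T c = ∑ c, lam c * ∑ z, Q c z * T z := by
    simp only [sum_mul, mul_sum]
    rw [sum_comm]
    exact sum_congr rfl fun _ _ => sum_congr rfl fun _ _ => by ring
  simp only [add_mul, mul_add, sum_add_distrib] at h1 h2
  linarith

omit [Fintype V] in
theorem qm_add (Q a b : V → V → ℝ) : ∀ (l : List V) (x y : V),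
    qm Q (fun u v => a u v + b u v) x l y = qm Q a x l y + qm Q b x l y
  | [], _, _ => rfl
  | z :: l, x, y => by simp only [qm]; rw [qm_add Q a b l]; ring

omit [Fintype V] in
theorem qm_restart (Q : V → V → ℝ) (ψ : V → ℝ) : ∀ (l : List V) (x y : V),
    qm Q (fun u v => ψ u * Q u v) x l y = (ψ x + ls ψ l) * qw Q x l y
  | [], _, _ => by simp [qm, qw]
  | z :: l, x, y => by simp only [qm, qw, ls_cons]; rw [qm_restart Q ψ l]; ring

theorem sum_delta (κ : V → V → ℝ) (x y : V) :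
    ∑ a : V × V, κ a.1 a.2 * (ind (x = a.1) * ind (y = a.2)) = κ x y := by
  rw [Fintype.sum_prod_type, ← sum_ind_eq x fun u => κ u y]
  refine sum_congr rfl fun u _ => ?_
  rw [← sum_ind_eq y (κ u), mul_sum]
  exact sum_congr rfl fun v _ => by ring

theorem qm_lin (Q κ : V → V → ℝ) : ∀ (l : List V) (x y : V), qm Q κ x l y =
    ∑ a : V × V, κ a.1 a.2 * qm Q (fun u v => ind (u = a.1) * ind (v = a.2)) x l y
  | [], x, y => (sum_delta κ x y).symm
  | z :: l, x, y => by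
    simp only [qm]
    rw [qm_lin Q κ l, ← sum_delta κ x z, sum_mul, mul_sum, ← sum_add_distrib]
    exact sum_congr rfl fun a _ => by ring

namespace Ker

variable (K : Ker V)

/-- cost `κ` of the paths from `c` to `t` with clock at most `s` -/
noncomputable def TK (L : ℕ) (s : ℝ) (κ : V → V → ℝ) (t c : V) : ℝ :=
  ∑ l ∈ lists V L, ind (K.P l ≤ s) * qm K.Q κ c l t

/-- cost of the first step -/
noncomputable def FK (L : ℕ) (s : ℝ) (κ : V → V → ℝ) (t c : V) : ℝ :=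
  ∑ l ∈ lists V L, ind (K.P l ≤ s) * (κ c (hd l t) * sw K.Q l t)

/-- cost of the paths started with `μ` -/
noncomputable def NK (L : ℕ) (s : ℝ) (μ : V → ℝ) (κ : V → V → ℝ) (t : V) : ℝ :=
  ∑ c, μ c * K.TK L s κ t c

/-- weight of the paths started with `μ` -/
noncomputable def PK (L : ℕ) (s : ℝ) (μ : V → ℝ) (t : V) : ℝ :=
  ∑ c, μ c * K.Z L (fun l => K.P l ≤ s) c t

variable {L : ℕ} {s : ℝ} {μ lam : V → ℝ} {κ : V → V → ℝ} {t : V}

theorem TK_nonneg (hκ : ∀ a b, 0 ≤ κ a b) (c : V) : 0 ≤ K.TK L s κ t c :=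
  sum_nonneg fun l _ => mul_nonneg (ind_nonneg _) (qm_nonneg K.Q0 hκ c l t)

theorem NK_nonneg (hμ : ∀ u, 0 ≤ μ u) (hκ : ∀ a b, 0 ≤ κ a b) : 0 ≤ K.NK L s μ κ t :=
  sum_nonneg fun c _ => mul_nonneg (hμ c) (K.TK_nonneg hκ c)

theorem PK_nonneg (hμ : ∀ u, 0 ≤ μ u) : 0 ≤ K.PK L s μ t :=
  sum_nonneg fun c _ => mul_nonneg (hμ c) (K.Z_nonneg _ _ _ _)

theorem ind_tail (z : V) (l : List V) : ind (K.P (z :: l) ≤ s) ≤ ind (K.P l ≤ s) :=
  ind_mono fun h => by rw [P_cons] at h; linarith [K.Wpos z]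

theorem TK_rec (hκ : ∀ a b, 0 ≤ κ a b) (c : V) :
    K.TK L s κ t c ≤ K.FK L s κ t c + ∑ z, K.Q c z * K.TK L s κ t z := by
  set g : List V → ℝ := fun l => ind (K.P l ≤ s) * (qm K.Q κ c l t - κ c (hd l t) * sw K.Q l t)
    with hg
  have e0 : g [] = 0 := by simp only [hg, hd, sw, P_nil, qm, mul_one, sub_self, mul_zero]
  have e1 : ∀ z l, g (z :: l) = ind (K.P (z :: l) ≤ s) * (K.Q c z * qm K.Q κ z l t) :=
    fun z l => by simp only [hg, qm, hd, sw]; ring
  have q0 : ∀ z l, 0 ≤ K.Q c z * qm K.Q κ z l t := fun z l =>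
    mul_nonneg (K.Q0 c z) (qm_nonneg K.Q0 hκ z l t)
  have g0 : ∀ l, 0 ≤ g l := fun l => by
    cases l with
    | nil => exact e0.ge
    | cons z l => rw [e1]; exact mul_nonneg (ind_nonneg _) (q0 z l)
  have h1 := sum_lists_cons_le L g g0
  have h2 : K.TK L s κ t c = K.FK L s κ t c + ∑ l ∈ lists V L, g l := by
    rw [TK, FK, ← sum_add_distrib]
    exact sum_congr rfl fun l _ => by simp only [hg]; ring
  have h3 : ∑ z, ∑ l ∈ lists V L, g (z :: l) ≤ ∑ z, K.Q c z * K.TK L s κ t z :=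
    sum_le_sum fun z _ => by
      rw [TK, mul_sum]
      refine sum_le_sum fun l _ => ?_
      rw [e1, mul_left_comm (K.Q c z)]
      exact mul_le_mul_of_nonneg_right (K.ind_tail z l) (q0 z l)
  linarith

theorem NK_le (hl : ∀ c, 0 ≤ lam c) (hS : ∀ u, μ u + ∑ x, lam x * K.Q x u ≤ lam u)
    (hκ : ∀ a b, 0 ≤ κ a b) : K.NK L s μ κ t ≤ ∑ c, lam c * K.FK L s κ t c :=
  maxp (K.TK_nonneg hκ) hl hS (K.TK_rec hκ)

theorem FK_restart (ψ : V → ℝ) (c : V) : K.FK L s (fun u v => ψ u * K.Q u v) t c =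
    ψ c * K.Z L (fun l => K.P l ≤ s) c t := by
  rw [FK, Z, mul_sum]
  refine sum_congr rfl fun l _ => ?_
  cases l with
  | nil => simp only [hd, sw, qw]; ring
  | cons z l => simp only [hd, sw, qw]; ring

theorem FK_le (hκ : ∀ a b, 0 ≤ κ a b) (c : V) : K.FK L s κ t c ≤
    ∑ z, κ c z * (ind (t = z) + K.Z L (fun l => K.P l ≤ s) z t) := by
  refine (sum_lists_cons_le L _ fun l => mul_nonneg (ind_nonneg _)
    (mul_nonneg (hκ _ _) (sw_nonneg K.Q0 l t))).trans ?_
  simp only [mul_add, sum_add_distrib, hd, sw]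
  refine add_le_add ?_ (sum_le_sum fun z _ => ?_)
  · have := sum_ind_eq t (κ c)
    simp only [mul_comm (ind _)] at this
    rw [this, mul_one]
    exact ind_mul_le (hκ c t) fun _ => le_rfl
  · rw [Z, mul_sum]
    refine sum_le_sum fun l _ => ?_
    rw [mul_left_comm (κ c z)]
    exact mul_le_mul_of_nonneg_right (K.ind_tail z l) (mul_nonneg (hκ c z) (K.qw0 z l t))

theorem NK_add (a b : V → V → ℝ) :
    K.NK L s μ (fun u v => a u v + b u v) t = K.NK L s μ a t + K.NK L s μ b t := by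
  simp only [NK, TK, qm_add, mul_add, sum_add_distrib]

theorem NK_lin (κ : V → V → ℝ) : K.NK L s μ κ t =
    ∑ a : V × V, K.NK L s μ (fun u v => ind (u = a.1) * ind (v = a.2)) t * κ a.1 a.2 := by
  simp only [NK, TK, sum_mul, mul_sum]
  symm
  rw [sum_comm]
  refine sum_congr rfl fun c _ => ?_
  rw [sum_comm]
  refine sum_congr rfl fun l _ => ?_
  rw [qm_lin K.Q κ, mul_sum, mul_sum]
  exact sum_congr rfl fun a _ => by ring

/-- pathwise bound for restart costs -/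
theorem NK_path (hμ : ∀ u, 0 ≤ μ u) (ψ : V → ℝ) {b : ℝ}
    (h : ∀ c l, K.P l ≤ s → ψ c + ls ψ l ≤ b) :
    K.NK L s μ (fun u v => ψ u * K.Q u v) t ≤ b * K.PK L s μ t := by
  rw [NK, PK, mul_sum]
  refine sum_le_sum fun c _ => ?_
  rw [mul_left_comm]
  refine mul_le_mul_of_nonneg_left ?_ (hμ c)
  rw [TK, Z, mul_sum]
  refine sum_le_sum fun l _ => ?_
  rw [qm_restart, mul_left_comm b]
  by_cases hl : K.P l ≤ s
  · exact mul_le_mul_of_nonneg_left (mul_le_mul_of_nonneg_right (h c l hl) (K.qw0 c l t))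
      (ind_nonneg _)
  · rw [ind_not hl, zero_mul, zero_mul]

end Ker

variable {D : V → V → Prop}

/-- a small average cost gives a short walk -/
theorem Sys.walk_avg (s : Sys D) {L : ℕ} {s0 d : ℝ} {μ φ : V → ℝ} {x0 t : V} (hμ : ∀ u, 0 ≤ μ u)
    (hx : ∀ u, 0 < μ u → D x0 u) (hφ : ∀ u, 0 ≤ φ u) (hP : 0 < s.toKer.PK L s0 μ t)
    (h : s.toKer.NK L s0 μ (fun u v => φ u * s.Q u v) t + s.toKer.NK L s0 μ (s.c φ) t ≤
      d * s.toKer.PK L s0 μ t) :
    ∃ l, List.IsChain D (x0 :: (l ++ [t])) ∧ ls φ l ≤ d := by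
  classical
  by_contra hc
  push Not at hc
  have key : ∀ c l, 0 < μ c → 0 < qw s.Q c l t →
      d * qw s.Q c l t < qm s.Q (fun u v => φ u * s.Q u v) c l t + qm s.Q (s.c φ) c l t :=
    fun c l h1 h2 => by
      obtain ⟨l', a, b⟩ := s.walk hφ c l t h2
      have := hc (c :: l') (List.isChain_cons_cons.2 ⟨hx c h1, a⟩)
      rw [ls_cons] at this
      rw [qm_restart]
      nlinarith only [h2, b, this]
  have c0 := s.c_nonneg hφ
  have r0 : ∀ u v, 0 ≤ φ u * s.Q u v := fun u v => mul_nonneg (hφ u) (s.Q0 u v)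
  simp only [Ker.NK, Ker.PK, Ker.TK, Ker.Z, mul_sum, ← sum_add_distrib, ← sum_product'] at h hP
  obtain ⟨a, ha, hp⟩ : ∃ a ∈ univ ×ˢ lists V L,
      0 < μ a.1 * (ind (s.toKer.P a.2 ≤ s0) * qw s.Q a.1 a.2 t) := by
    by_contra h'
    push Not at h'
    exact absurd (sum_nonpos h') (not_le.2 hP)
  have main : ∀ a : V × List V,
      (d * (μ a.1 * (ind (s.toKer.P a.2 ≤ s0) * qw s.Q a.1 a.2 t)) ≤
        μ a.1 * (ind (s.toKer.P a.2 ≤ s0) * qm s.Q (fun u v => φ u * s.Q u v) a.1 a.2 t) +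
        μ a.1 * (ind (s.toKer.P a.2 ≤ s0) * qm s.Q (s.c φ) a.1 a.2 t)) ∧
      (0 < μ a.1 * (ind (s.toKer.P a.2 ≤ s0) * qw s.Q a.1 a.2 t) →
        d * (μ a.1 * (ind (s.toKer.P a.2 ≤ s0) * qw s.Q a.1 a.2 t)) <
        μ a.1 * (ind (s.toKer.P a.2 ≤ s0) * qm s.Q (fun u v => φ u * s.Q u v) a.1 a.2 t) +
        μ a.1 * (ind (s.toKer.P a.2 ≤ s0) * qm s.Q (s.c φ) a.1 a.2 t)) := fun a => by
    have m1 := qm_nonneg s.Q0 r0 a.1 a.2 t
    have m2 := qm_nonneg s.Q0 c0 a.1 a.2 t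
    by_cases h1 : s.toKer.P a.2 ≤ s0
    · rw [ind_of h1]
      rcases (hμ a.1).eq_or_lt with e | e
      · rw [← e]; simp
      rcases (s.toKer.qw0 a.1 a.2 t).eq_or_lt with e' | e'
      · rw [← e']
        simp only [mul_zero, lt_self_iff_false, false_imp_iff, and_true, one_mul]
        positivity
      have := mul_lt_mul_of_pos_left (key _ _ e e') e
      exact ⟨by linarith, fun _ => by linarith⟩
    · rw [ind_not h1]; simp
  exact absurd h (not_le.2 (sum_lt_sum (fun a _ => (main a).1) ⟨a, ha, (main a).2 hp⟩))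

/-- cost of the mid vertices under step intensities below the excessive measure -/
theorem Sys.mid_le (s : Sys D) {w0 y E δ : ℝ} (hw : 0 < w0) (hy : 0 < 1 / y)
    (hom : ∀ u, w0 * s.W u ≤ 1 / y)
    (n : V × V → ℝ) (n0 : ∀ a, 0 ≤ n a) (n1 : ∀ a, n a ≤ (w0 * s.W a.1) ^ 40)
    (hE : ∑ a, n a * (w0 * s.W a.1 * s.Q a.1 a.2) ≤ E) (hδ : 0 ≤ δ)
    (h2 : 2 * (s.eps * (1 / y) ^ 39 * E) ≤ δ ^ 2) (φ : V → ℝ) (hφ : ∑ u, φ u ^ 2 ≤ 1) :
    ∑ a, n a * s.c φ a.1 a.2 ≤ δ := by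
  have om0 : ∀ u, 0 < w0 * s.W u := fun u => mul_pos hw (s.toKer.Wpos u)
  refine charge' univ n (fun a => s.W a.1)
    (fun a => (1 / y) ^ 36 * (w0 * s.W a.1) ^ 4 * (s.eps * s.Q a.1 a.2)) (fun a => s.m a.1 a.2)
    (fun a _ => n0 a) (fun a _ u => s.m0 _ _ u) (fun a _ _ => ?_) hδ (le_trans ?_ h2) φ hφ
  · refine le_trans ?_ (mul_le_mul_of_nonneg_left (s.M3 a.1 a.2) (by have := om0 a.1; positivity))
    rw [mul_sum]
    refine sum_le_sum fun u _ => ?_
    rw [mul_left_comm]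
    refine mul_le_mul_of_nonneg_left ?_ (s.m0 _ _ u)
    rw [Fintype.sum_prod_type, mul_sum]
    refine sum_le_sum fun z _ => ?_
    rw [mul_sum, mul_sum]
    refine sum_le_sum fun t _ => ?_
    have hm := s.m0 z t u
    refine ind_mul_le (mul_nonneg (by have := om0 a.1; positivity) (mul_nonneg ph_nonneg hm))
      fun h => ?_
    have wa := s.toKer.Wpos a.1
    rw [ph_of_one_le ((one_le_div wa).2 h), ← mul_assoc]
    refine mul_le_mul_of_nonneg_right ((n1 (z, t)).trans ?_) hm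
    have e : (1 / y) ^ 36 * (w0 * s.W a.1) ^ 4 * (s.W z / s.W a.1) ^ 4 =
        (1 / y) ^ 36 * (w0 * s.W z) ^ 4 := by field_simp
    rw [e, show (40 : ℕ) = 36 + 4 from rfl, pow_add]
    exact mul_le_mul_of_nonneg_right (pow_le_pow_left₀ (om0 z).le (hom z) 36) (by positivity)
  · refine mul_le_mul_of_nonneg_left ?_ zero_le_two
    refine le_trans ?_ (mul_le_mul_of_nonneg_left hE (mul_nonneg s.eps0 (by positivity)))
    rw [mul_sum]
    refine sum_le_sum fun a _ => ?_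
    have h3 : (w0 * s.W a.1) ^ 3 ≤ (1 / y) ^ 3 := pow_le_pow_left₀ (om0 _).le (hom _) 3
    have h4 : 0 ≤ n a * ((1 / y) ^ 36 * (w0 * s.W a.1) * (s.eps * s.Q a.1 a.2)) := by
      have := n0 a; have := om0 a.1; have := s.eps0; have := s.Q0 a.1 a.2; positivity
    calc _ = n a * ((1 / y) ^ 36 * (w0 * s.W a.1) * (s.eps * s.Q a.1 a.2)) *
          (w0 * s.W a.1) ^ 3 := by ring
      _ ≤ _ := (mul_le_mul_of_nonneg_left h3 h4).trans (le_of_eq (by ring))

end Pool.Agent.MP_114209_co.H79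

/-! Section 5: without violation the start is linked to a spread distribution. -/

namespace Pool.Agent.MP_114209_co.H79

open Finset

variable {V : Type} [Fintype V] [DecidableEq V] {D : V → V → Prop}

/-- weight of the paths from the start distribution to `t` with clock at most `σ` -/
noncomputable def Sys.Pt (s : Sys D) (μ : V → ℝ) (L : ℕ) (σ : ℝ) (t : V) : ℝ :=
  ∑ c, μ c * s.toKer.Z L (fun l => s.toKer.P l ≤ σ) c t

variable {s : Sys D} {μ : V → ℝ} {w0 y : ℝ}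

omit [DecidableEq V] in
theorem Ker.k5a_mass (K : Ker V) {w : ℝ} : ∀ (l : List V) (a b : ℝ), (∀ z ∈ l, K.W z ≤ w) →
    b ≤ K.P l → (a ≤ 0 → b ≤ sp3 (fun p z _ => ind (a ≤ K.P p ∧ K.P p < b) * K.W z) l) ∧
      (-w ≤ a → b - a - w ≤ sp3 (fun p z _ => ind (a ≤ K.P p ∧ K.P p < b) * K.W z) l)
  | [], a, b, _, h => ⟨fun _ => h, fun h' => by
      simp only [Ker.P_nil] at h; simp only [sp3]; linarith⟩
  | z :: l, a, b, hw, h => by
    have hz := hw z List.mem_cons_self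
    have wz := K.Wpos z
    rw [Ker.P_cons] at h
    obtain ⟨i1, i2⟩ := Ker.k5a_mass K l (a - K.W z) (b - K.W z)
      (fun u hu => hw u (List.mem_cons_of_mem _ hu)) (by linarith)
    have e : sp3 (fun p z _ => ind (a ≤ K.P p ∧ K.P p < b) * K.W z) (z :: l) =
        ind (a ≤ 0 ∧ 0 < b) * K.W z +
          sp3 (fun p u _ => ind (a - K.W z ≤ K.P p ∧ K.P p < b - K.W z) * K.W u) l := by
      simp only [sp3, Ker.P_nil, Ker.P_cons, sub_le_iff_le_add', lt_sub_iff_add_lt']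
    have n1 : 0 ≤ ind (a ≤ 0 ∧ 0 < b) * K.W z := mul_nonneg (ind_nonneg _) wz.le
    have c1 : a ≤ 0 → b ≤ sp3 (fun p z _ => ind (a ≤ K.P p ∧ K.P p < b) * K.W z) (z :: l) :=
      fun ha => by
        by_cases hb : 0 < b
        · rw [e, ind_of ⟨ha, hb⟩]; linarith [i1 (by linarith)]
        · exact (not_lt.1 hb).trans
            (sp3_nonneg (fun _ u _ => mul_nonneg (ind_nonneg _) (K.Wpos u).le) _)
    refine ⟨c1, fun ha => ?_⟩
    by_cases h0 : a ≤ 0
    · linarith [c1 h0]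
    · rw [e]; linarith [i2 (by linarith)]

omit [DecidableEq V] in
theorem Ker.mass_ge (K : Ker V) (T w : ℝ) (hT : 0 ≤ T) (hw0 : 0 ≤ w) (l : List V)
    (hw : ∀ z ∈ l, K.W z ≤ w) (h : 2 * T ≤ K.P l) :
    T - w ≤ sp3 (fun p z _ => ind (T ≤ K.P p ∧ K.P p < 2 * T) * K.W z) l := by
  linarith [(K.k5a_mass l T (2 * T) hw h).2 (by linarith)]

theorem k5a_good (s : Sys D) (L : ℕ) {R η T w s' : ℝ} (hT : 0 < T) (hw0 : 0 ≤ w)
    (hw : ∀ u, s.W u ≤ w) (hs : 2 * T + w ≤ s') (hv : ¬ s.toKer.Vf L R η T) (z : V) :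
    (T - w) * ∑ y ∈ s.Aᶜ, s.toKer.Z L (fun l => s.toKer.P l ≤ s' ∧ s' < s.toKer.P l + s.W y ∧
      s.toKer.fwd R z l) z y ≤ η / T ^ 40 * ∑ u ∈ s.Aᶜ, s.W u ^ 41 := by
  set K := s.toKer with hK
  set a : List V → V → ℝ := fun p u =>
    ind (T ≤ K.P p ∧ K.P p < 2 * T ∧ K.fwd R z p) * qw K.Q z p u * K.W u with ha
  set c : V → List V → V → List V → ℝ := fun y p u r =>
    ind (K.P r ≤ s' - K.P p - K.W u ∧ s' - K.P p - K.W u < K.P r + K.W y) * qw K.Q u r y with hc
  have a0 : ∀ p u, 0 ≤ a p u := fun p u =>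
    mul_nonneg (mul_nonneg (ind_nonneg _) (K.qw0 _ _ _)) (K.Wpos u).le
  have c0 : ∀ y p u r, 0 ≤ c y p u r := fun y p u r => mul_nonneg (ind_nonneg _) (K.qw0 _ _ _)
  have h1 : ∀ y, (T - w) * K.Z L (fun l => K.P l ≤ s' ∧ s' < K.P l + K.W y ∧ K.fwd R z l) z y ≤
      ∑ p ∈ lists V L, ∑ u, ∑ r ∈ lists V L, a p u * c y p u r := fun y => by
    refine le_trans ?_ (sum_sp3_le L _ fun p u r => mul_nonneg (a0 p u) (c0 y p u r))
    rw [Ker.Z, mul_sum]
    refine sum_le_sum fun l _ => ?_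
    rw [mul_left_comm]
    refine ind_mul_le (sp3_nonneg (fun p u r => mul_nonneg (a0 p u) (c0 y p u r)) l) fun hl => ?_
    have := mul_le_mul_of_nonneg_left (K.mass_ge T w hT.le hw0 l (fun u _ => hw u)
      (by linarith [hl.2.1, hw y])) (K.qw0 z l y)
    rw [mul_sp3] at this
    refine (mul_comm _ _).le.trans (this.trans (sp3_mono fun p u r e => ?_))
    subst e
    rw [mul_left_comm]
    refine ind_mul_le (mul_nonneg (a0 p u) (c0 y p u r)) fun h => le_of_eq ?_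
    obtain ⟨b1, b2, b3⟩ := hl
    rw [Ker.P_append, Ker.P_cons] at b1 b2
    simp only [ha, hc]
    rw [ind_of ⟨h.1, h.2, K.fwd_left b3⟩, ind_of ⟨by linarith only [b1], by linarith⟩, qw_append]
    ring
  have h2 : ∀ p u, ∑ y, ∑ r ∈ lists V L, c y p u r ≤ ind (u ∉ s.A) := fun p u => by
    by_cases hu : u ∈ s.A
    · exact (sum_eq_zero fun y _ => K.Z_of_row (s.rowA u hu) L _ y).le.trans (ind_nonneg _)
    · rw [ind_of hu]; exact K.cov L u _
  rw [mul_sum]
  refine ((sum_le_sum fun y _ => h1 y).trans (sum_le_univ_sum_of_nonneg fun y =>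
    sum_nonneg fun p _ => sum_nonneg fun u _ => sum_nonneg fun r _ =>
      mul_nonneg (a0 p u) (c0 y p u r))).trans ?_
  have e : ∑ y, ∑ p ∈ lists V L, ∑ u, ∑ r ∈ lists V L, a p u * c y p u r =
      ∑ u, ∑ p ∈ lists V L, a p u * ∑ y, ∑ r ∈ lists V L, c y p u r := by
    rw [sum_comm, sum_comm (s := univ) (t := lists V L)]
    refine sum_congr rfl fun p _ => ?_
    rw [sum_comm]
    simp only [mul_sum]
  rw [e]
  refine (sum_le_sum fun u _ => sum_le_sum fun p _ =>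
    mul_le_mul_of_nonneg_left (h2 p u) (a0 p u)).trans ?_
  rw [← sum_compl_add_sum s.A, sum_eq_zero (s := s.A) fun u hu => by simp [ind_not (not_not.2 hu)],
    add_zero, mul_sum]
  refine sum_le_sum fun u hu => ?_
  simp only [ind_of (mem_compl.1 hu), mul_one, ha]
  rw [← sum_mul]
  refine (mul_le_mul_of_nonneg_right (not_lt.1 fun h => hv ⟨z, u, h⟩) (K.Wpos u).le).trans
    (le_of_eq ?_)
  rw [div_pow]; ring

theorem Extra.sur (hx : Extra s μ w0 y) (hy : 1600 ≤ y) (L : ℕ) {R η : ℝ} (hR : 128 ≤ R)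
    (hη0 : 0 ≤ η) (hη : η ≤ 1 / 800 ^ 42) (hv : ∀ j : ℕ, ¬ s.toKer.Vf L R η (2 ^ j)) (x : V) :
    s.toKer.Sur L s.A (1 / (100 * w0)) x ≤ 1 / 100 := by
  set K := s.toKer with hK
  have w0p := hx.w0p
  have y0 : 0 < y := by linarith only [hy]
  set s0 := 1 / (100 * w0) with hs0
  have hw : ∀ u, K.W u ≤ s0 / 16 := fun u => by
    have := (hx.om u).trans (one_div_le_one_div_of_le (by norm_num) hy)
    rw [hs0, div_div, le_div_iff₀ (by positivity)]
    linarith only [this]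
  have s16 : 16 ≤ s0 := by linarith only [hw x, K.W1 x]
  obtain ⟨j, j1, j2⟩ := exists_nat_pow_near (x := s0 / 4) (y := 2) (by linarith only [s16]) one_lt_two
  rw [pow_succ] at j2
  set T : ℝ := 2 ^ j with hT
  have T0 : 0 < T := by positivity
  have hb : η / T ^ 40 * ∑ u ∈ s.Aᶜ, s.W u ^ 41 ≤ T / 2 * (1 / 200) := by
    have a1 : ∑ u ∈ s.Aᶜ, s.W u ^ 41 ≤ 2 / w0 ^ 41 := by
      rw [le_div_iff₀ (by positivity), sum_mul]
      exact le_trans (le_of_eq (sum_congr rfl fun u _ => by ring)) hx.S4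
    have a2 : 1 / 800 ≤ T * w0 := by
      rw [hs0, div_div, div_lt_iff₀ (by positivity)] at j2; linarith only [j2]
    have a3 := pow_le_pow_left₀ (by norm_num) a2 41
    refine (mul_le_mul (div_le_div_of_nonneg_right hη (by positivity)) a1
      (sum_nonneg fun u _ => (pow_pos (K.Wpos u) _).le) (by positivity)).trans ?_
    rw [div_mul_div_comm, div_le_iff₀ (by positivity)]
    calc _ = (1 / 800 : ℝ) ^ 41 / 400 := by norm_num
      _ ≤ (T * w0) ^ 41 / 400 := by linarith only [a3]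
      _ = _ := by ring
  have h1 : ∀ i ∈ range (2 ^ j), ∑ y ∈ s.Aᶜ, K.Z L (fun l => (K.P l ≤ s0 ∧ s0 < K.P l + K.W y) ∧
      ¬ K.BadF R s0 (0 + (i : ℕ)) l) x y ≤ 1 / 200 := fun i hi => by
    have i1 : (i : ℝ) < T := by rw [hT]; exact_mod_cast mem_range.1 hi
    have i0 : (0 : ℝ) ≤ i := Nat.cast_nonneg i
    refine (sum_le_sum fun y _ => K.Z_cut L (fun p z r => (K.P p ≤ i ∧ i < K.P p + K.W z) ∧
      K.P r ≤ s0 - K.P p - K.W z ∧ s0 - K.P p - K.W z < K.P r + K.W y ∧ K.fwd R z r)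
      (fun l hl => ?_) x y).trans ?_
    · obtain ⟨⟨b1, b2⟩, b3⟩ := hl
      obtain ⟨p, z, r, rfl, c1, c2⟩ := K.exists_cover (l := l) i0 (by linarith only [hw y, j1, i1, b2])
      rw [Ker.P_append, Ker.P_cons] at b1 b2
      refine ⟨p, z, r, rfl, ⟨c1, c2⟩, by linarith only [b1], by linarith only [b2], not_not.1 fun h => b3
        ⟨p, z, r, [], by simp, by linarith only [c1], by linarith only [c2], by linarith only [b1], h⟩⟩
    · refine le_trans ?_ (mul_le_of_le_one_left (by norm_num) (K.cov L x i))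
      rw [sum_comm]
      simp only [Ker.Z, sum_mul]
      rw [sum_comm (s := univ)]
      refine sum_le_sum fun p _ => ?_
      rw [sum_comm]
      refine sum_le_sum fun z _ => ?_
      rw [← mul_sum, mul_comm (ind _), mul_assoc]
      refine mul_le_mul_of_nonneg_left ?_ (K.qw0 x p z)
      by_cases hc : K.P p ≤ i ∧ i < K.P p + K.W z
      · simp only [hc, and_self, true_and, ind_of True.intro, one_mul]
        have := (k5a_good s L T0 (by linarith only [s16]) hw (s' := s0 - K.P p - K.W z)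
          (by linarith only [hc.1, hw z, j1, i1]) (hv j) z).trans hb
        have n0 := sum_nonneg fun y (_ : y ∈ s.Aᶜ) => K.Z_nonneg L (fun l =>
          K.P l ≤ s0 - K.P p - K.W z ∧ s0 - K.P p - K.W z < K.P l + K.W y ∧ K.fwd R z l) z y
        have := (mul_le_mul_of_nonneg_right (show T / 2 ≤ T - s0 / 16 by linarith only [j2]) n0).trans this
        exact le_of_mul_le_mul_left this (by positivity)
      · simp only [hc, false_and, ind_not not_false, zero_mul, sum_const_zero, le_refl]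
  have h2 : T / 2 * K.Sur L s.A s0 x ≤ ∑ i ∈ range (2 ^ j), ∑ y ∈ s.Aᶜ, K.Z L (fun l =>
      (K.P l ≤ s0 ∧ s0 < K.P l + K.W y) ∧ ¬ K.BadF R s0 (0 + (i : ℕ)) l) x y := by
    rw [sum_comm, Ker.Sur, mul_sum]
    refine sum_le_sum fun y _ => ?_
    simp only [Ker.Z]
    rw [sum_comm, mul_sum]
    refine sum_le_sum fun l _ => ?_
    simp only [ind_and (K.P l ≤ s0 ∧ s0 < K.P l + K.W y)]
    rw [← sum_mul, ← mul_sum, ← mul_assoc, mul_comm (T / 2)]
    refine mul_le_mul_of_nonneg_right (mul_le_mul_of_nonneg_left ?_ (ind_nonneg _)) (K.qw0 _ _ _)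
    have b1 := K.cnt_badF R 0 s0 0 (2 ^ j) (by linarith only [hR]) le_rfl (by linarith only [s16]) l
    have b2 : 8 * (s0 - 0) / R ≤ T / 2 := by
      rw [div_le_iff₀ (by linarith only [hR])]; nlinarith only [hR, s16, j2]
    have b3 : ∑ i ∈ range (2 ^ j), (ind (K.BadF R s0 (0 + (i : ℕ)) l) +
        ind (¬ K.BadF R s0 (0 + (i : ℕ)) l)) = T := by
      rw [sum_congr rfl (g := fun _ => (1 : ℝ)) fun i _ => by
        by_cases h : K.BadF R s0 (0 + (i : ℕ)) l
        · rw [ind_of h, ind_not (not_not.2 h), add_zero]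
        · rw [ind_not h, ind_of h, zero_add]]
      simp [hT]
    rw [sum_add_distrib] at b3
    linarith only [b1, b2, b3]
  have h3 := h2.trans (sum_le_sum h1)
  rw [sum_const, card_range, nsmul_eq_mul, Nat.cast_pow, Nat.cast_ofNat, ← hT] at h3
  nlinarith only [s16, j2, h3]

theorem Extra.om0 (hx : Extra s μ w0 y) (u : V) : 0 < w0 * s.W u :=
  mul_pos hx.w0p (s.toKer.Wpos u)

theorem k5_row (s : Sys D) {f : V → ℝ} (hf : ∀ u, 0 ≤ f u) :
    ∑ z, f z * ∑ t, s.Q z t ≤ ∑ z ∈ s.Aᶜ, f z := by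
  rw [← sum_compl_add_sum s.A, sum_eq_zero (s := s.A) fun z hz => by simp only [s.rowA z hz, sum_const_zero, mul_zero], add_zero]
  exact sum_le_sum fun z _ => mul_le_of_le_one_right (hf z) (s.row z)

theorem k5_abs (s : Sys D) (L : ℕ) (Φ : List V → Prop) (z : V) :
    ∑ t ∈ s.A, (ind (t = z) + s.toKer.Z L Φ z t) ≤ 1 := by
  rw [sum_add_distrib]
  refine le_trans (add_le_add ?_ le_rfl) (s.toKer.abs_A s.A s.rowA L (fun _ => Φ) z)
  by_cases h : z ∈ s.A
  · rw [ind_of h, sum_eq_single z (fun t _ ht => ind_not ht) fun h' => absurd h h']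
    exact ind_le_one _
  · exact (sum_eq_zero fun t ht => ind_not fun e : t = z => h (e ▸ ht)).le.trans (ind_nonneg _)

theorem k5_abs1 (s : Sys D) (L : ℕ) (Φ : List V → Prop) (z : V) {t : V} (ht : t ∈ s.A) :
    ind (t = z) + s.toKer.Z L Φ z t ≤ 1 :=
  (single_le_sum (f := fun t => ind (t = z) + s.toKer.Z L Φ z t)
    (fun _ _ => add_nonneg (ind_nonneg _) (s.toKer.Z_nonneg _ _ _ _)) ht).trans (k5_abs s L Φ z)

theorem Extra.ienergy (hx : Extra s μ w0 y) (hy : 1 ≤ y) (heps : s.eps ≤ 2 / y ^ 9) (φ : V → ℝ)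
    (hφ : ∑ u, φ u ^ 2 ≤ 1) {δ : ℝ} (hδ0 : 0 ≤ δ) (hδ : 8 / y ^ 48 ≤ δ ^ 2) :
    ∑ z, (w0 * s.W z) ^ 40 * ∑ t, s.c φ z t ≤ δ := by
  have y0 : 0 < y := by linarith only [hy]
  have := s.mid_le hx.w0p (by positivity) hx.om (fun a => (w0 * s.W a.1) ^ 40)
    (fun a => (pow_pos (hx.om0 _) _).le) (fun a => le_rfl) (E := 2) (by
      refine le_trans (le_of_eq ?_) ((k5_row s fun u => (pow_pos (hx.om0 u) 41).le).trans hx.S4)
      rw [Fintype.sum_prod_type]
      refine sum_congr rfl fun z _ => ?_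
      rw [mul_sum]
      exact sum_congr rfl fun t _ => by ring) hδ0 (by
      refine le_trans ?_ hδ
      calc _ = 4 * (1 / y) ^ 39 * s.eps := by ring
        _ ≤ 4 * (1 / y) ^ 39 * (2 / y ^ 9) := mul_le_mul_of_nonneg_left heps (by positivity)
        _ = _ := by field_simp; norm_num) φ hφ
  rw [Fintype.sum_prod_type] at this
  simpa only [mul_sum] using this

theorem k5_pt {y ω r : ℝ} (hy : 1 ≤ y) (h0 : 0 < ω) (r0 : 0 ≤ r) (hr : r < 1 / y ^ 3) :
    ω ^ 40 * r ≤ r ^ 2 / y ^ 60 + ω ^ 41 / y := by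
  have y0 : 0 < y := by linarith
  by_cases h : ω ≤ 1 / y ^ 2
  · have h1 : ω ^ 39 * y ^ 60 ≤ 1 / y := by
      calc _ ≤ (1 / y ^ 2) ^ 39 * y ^ 60 :=
            mul_le_mul_of_nonneg_right (pow_le_pow_left₀ h0.le h 39) (by positivity)
        _ = 1 / y ^ 18 := by field_simp
        _ ≤ 1 / y := one_div_le_one_div_of_le y0 (le_self_pow₀ hy (by norm_num))
    have h2 := mul_le_mul_of_nonneg_left h1 (pow_pos h0 41).le
    have h3 : 0 ≤ (r / y ^ 30 - ω ^ 40 * y ^ 30) ^ 2 := sq_nonneg _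
    have e : (r / y ^ 30 - ω ^ 40 * y ^ 30) ^ 2 =
        r ^ 2 / y ^ 60 - 2 * (ω ^ 40 * r) + ω ^ 41 * (ω ^ 39 * y ^ 60) := by field_simp; ring
    have : 0 ≤ ω ^ 40 * r := by positivity
    rw [mul_one_div] at h2
    linarith
  · have h1 : r ≤ ω / y := by
      refine hr.le.trans ?_
      rw [show 1 / y ^ 3 = 1 / y ^ 2 / y by field_simp]
      exact div_le_div_of_nonneg_right (not_le.1 h).le y0.le
    have h2 := mul_le_mul_of_nonneg_left h1 (pow_pos h0 40).le
    have e : ω ^ 40 * (ω / y) = ω ^ 41 / y := by ring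
    have : 0 ≤ r ^ 2 / y ^ 60 := by positivity
    linarith

/-- few paths end in the light part of `S` -/
theorem Extra.light (hx : Extra s μ w0 y) (hy : 2 ^ 20 ≤ y) (heps : s.eps ≤ 2 / y ^ 9)
    {S : Finset V} (hSA : S ⊆ s.A) {ρ : V → ℝ} (ρ0 : ∀ u, 0 ≤ ρ u)
    (ρ1 : ∑ u, ρ u ^ 2 ≤ 2 ^ 46 * y ^ 41) (ρA : ∀ u ∉ s.A, ρ u < 1 / y ^ 3) {x0 : V}
    (hc : Cert D x0 S ρ (1 / 4)) (μ0 : ∀ c, 0 ≤ μ c) (hμ : ∀ c, 0 < μ c → D x0 c ∧ c ∉ s.A)
    (L : ℕ) (σ : ℝ) : ∑ t ∈ S, ind (ρ t < 1 / y ^ 3) * s.Pt μ L σ t ≤ 1 / 100 := by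
  have y1 : 1 ≤ y := le_trans (by norm_num) hy
  have y0 : 0 < y := by linarith
  set κ : V → V → ℝ := fun u v => ρ u * s.Q u v + s.c ρ u v with hκ
  have κ0 : ∀ u v, 0 ≤ κ u v := fun u v =>
    add_nonneg (mul_nonneg (ρ0 u) (s.Q0 u v)) (s.c_nonneg ρ0 u v)
  have l0 : ∀ u, 0 ≤ (w0 * s.W u) ^ 40 := fun u => (pow_pos (hx.om0 u) _).le
  have n0 : ∀ t, 0 ≤ s.toKer.NK L σ μ κ t := fun t => s.toKer.NK_nonneg μ0 κ0
  have h1 : ∀ t ∈ S, ind (ρ t < 1 / y ^ 3) * s.Pt μ L σ t ≤ 8 * s.toKer.NK L σ μ κ t :=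
    fun t ht => ind_mul_le (by linarith only [n0 t]) fun hr => by
      by_contra hc'
      have hP : s.Pt μ L σ t = s.toKer.PK L σ μ t := rfl
      obtain ⟨l, a, b⟩ := s.walk_avg (L := L) (s0 := σ) (d := 1 / 8) (t := t) μ0
        (fun u h => (hμ u h).1) ρ0 (by linarith only [n0 t, hc', hP]) (by rw [← Ker.NK_add]; linarith only [hc', hP])
      have := hc (l ++ [t]) ⟨a, by simpa using ht⟩
      change _ ≤ ls ρ _ at this
      rw [ls_append, ls_cons, ls_nil] at this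
      have : 1 / y ^ 3 ≤ 1 / 2 ^ 3 :=
        one_div_le_one_div_of_le (by norm_num) (pow_le_pow_left₀ (by norm_num) (by linarith only [hy]) 3)
      linarith
  have h2 : ∑ t ∈ s.A, s.toKer.NK L σ μ κ t ≤ ∑ c, (w0 * s.W c) ^ 40 * ∑ z, κ c z := by
    refine (sum_le_sum fun t _ => (s.toKer.NK_le l0 hx.S3 κ0).trans (sum_le_sum fun c _ =>
      mul_le_mul_of_nonneg_left (s.toKer.FK_le κ0 c) (l0 c))).trans ?_
    rw [sum_comm]
    refine sum_le_sum fun c _ => ?_
    rw [← mul_sum, sum_comm]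
    refine mul_le_mul_of_nonneg_left (sum_le_sum fun z _ => ?_) (l0 c)
    rw [← mul_sum]
    exact mul_le_of_le_one_right (κ0 c z) (k5_abs s L _ z)
  have h3 : ∑ c, (w0 * s.W c) ^ 40 * ρ c * ∑ z, s.Q c z ≤ 3 / y := by
    refine (k5_row s fun u => mul_nonneg (l0 u) (ρ0 u)).trans ((sum_le_sum fun u hu =>
      k5_pt y1 (hx.om0 u) (ρ0 u) (ρA u (mem_compl.1 hu))).trans ?_)
    rw [sum_add_distrib, ← sum_div, ← sum_div]
    have a1 := div_le_div_of_nonneg_right hx.S4 y0.le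
    have a2 : (∑ u ∈ s.Aᶜ, ρ u ^ 2) / y ^ 60 ≤ 1 / y := by
      refine (div_le_div_of_nonneg_right ((sum_le_univ_sum_of_nonneg fun u => sq_nonneg _).trans
        ρ1) (by positivity)).trans ?_
      rw [div_le_div_iff₀ (by positivity) y0]
      have : (2 : ℝ) ^ 46 ≤ y ^ 18 :=
        le_trans (by norm_num) ((pow_le_pow_left₀ (by norm_num) hy 3).trans
          (pow_le_pow_right₀ y1 (by norm_num)))
      calc _ = 2 ^ 46 * y ^ 42 := by ring
        _ ≤ y ^ 18 * y ^ 42 := mul_le_mul_of_nonneg_right this (by positivity)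
        _ = _ := by ring
    calc _ ≤ 1 / y + 2 / y := add_le_add a2 a1
      _ = _ := by ring
  have h4 : ∑ c, (w0 * s.W c) ^ 40 * ∑ z, s.c ρ c z ≤ 1 / y := by
    have r0 : (0 : ℝ) < 2 ^ 23 * y ^ 21 := by positivity
    have := hx.ienergy y1 heps (fun u => ρ u / (2 ^ 23 * y ^ 21)) (δ := 3 / y ^ 24) (by
      simp only [div_pow]
      rw [← sum_div, div_le_one (by positivity)]
      refine ρ1.trans ?_
      calc _ ≤ 2 ^ 46 * y ^ 42 :=
            mul_le_mul_of_nonneg_left (pow_le_pow_right₀ y1 (by norm_num)) (by positivity)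
        _ = _ := by ring) (by positivity) (by
      rw [div_pow, ← pow_mul]
      exact div_le_div_of_nonneg_right (by norm_num) (by positivity))
    simp only [Sys.c, ← mul_div_assoc, ← sum_div] at this ⊢
    rw [div_le_iff₀ r0] at this
    refine this.trans ?_
    rw [show 3 / y ^ 24 * (2 ^ 23 * y ^ 21) = 3 * 2 ^ 23 / y ^ 2 / y by field_simp]
    refine div_le_div_of_nonneg_right ((div_le_one (by positivity)).2 ?_) y0.le
    exact le_trans (by norm_num) (pow_le_pow_left₀ (by norm_num) hy 2)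
  have h5 : ∑ c, (w0 * s.W c) ^ 40 * ∑ z, κ c z = ∑ c, (w0 * s.W c) ^ 40 * ρ c * ∑ z, s.Q c z +
      ∑ c, (w0 * s.W c) ^ 40 * ∑ z, s.c ρ c z := by
    simp only [hκ, sum_add_distrib, mul_add, ← mul_sum, mul_assoc]
  have h6 := (sum_le_sum h1).trans (sum_le_sum_of_subset_of_nonneg hSA fun t _ _ => by
    linarith only [n0 t])
  rw [← mul_sum] at h6
  have h7 : 1 / y ≤ 1 / 2 ^ 20 := one_div_le_one_div_of_le (by norm_num) hy
  have : 3 / y = 3 * (1 / y) := by ring
  linarith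

theorem Extra.path (hx : Extra s μ w0 y) (hy : 2 ≤ y) (c : V) (l : List V)
    (h : s.toKer.P l ≤ 1 / (100 * w0)) : w0 * s.W c + ls (fun u => w0 * s.W u) l ≤ 1 := by
  have e : ls (fun u => w0 * s.W u) l = w0 * s.toKer.P l := List.sum_map_mul_left ..
  have h1 := mul_le_mul_of_nonneg_left h hx.w0p.le
  rw [show w0 * (1 / (100 * w0)) = 1 / 100 by have := hx.w0p; field_simp] at h1
  have := one_div_le_one_div_of_le two_pos hy
  linarith [hx.om c]

theorem Extra.spread (hx : Extra s μ w0 y) (hy : 2 ≤ y) (he : s.e ≤ 1 / y ^ 12) (L : ℕ) {t : V}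
    (ht : t ∈ s.A) (z : V) : (w0 * s.W z) ^ 40 *
      s.toKer.Z L (fun l => s.toKer.P l ≤ 1 / (100 * w0)) z t ≤ w0 * s.W z / y ^ 48 := by
  have y1 : 1 ≤ y := by linarith
  have y0 : 0 < y := by linarith
  have o0 := hx.om0 z
  have w0p := hx.w0p
  have wz := s.toKer.Wpos z
  have a1 : ∀ u, s.toKer.Z L (fun l => s.toKer.P l ≤ 1 / (100 * w0)) u t ≤ 1 := fun u =>
    le_trans (le_add_of_nonneg_left (ind_nonneg _)) (k5_abs1 s L _ u ht)
  by_cases h : w0 * s.W z ≤ 1 / y ^ 2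
  · refine (mul_le_of_le_one_right (pow_pos o0 _).le (a1 z)).trans ?_
    rw [pow_succ', div_eq_mul_one_div]
    refine mul_le_mul_of_nonneg_left ((pow_le_pow_left₀ o0.le h 39).trans ?_) o0.le
    rw [div_pow, one_pow, ← pow_mul]
    exact one_div_le_one_div_of_le (by positivity) (pow_le_pow_right₀ y1 (by norm_num))
  · have h1 := mul_le_mul_of_nonneg_left (s.bc0 L z t (1 / (100 * w0)) 1 (by positivity)
      zero_le_one fun u _ => by rw [ind_congr eq_comm]; exact k5_abs1 s L _ u ht)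
      (pow_pos w0p 40).le
    have h2 : 1 / (100 * w0) / s.W z ≤ y ^ 2 / 100 := by
      have := (div_lt_iff₀ (by positivity)).1 (not_le.1 h)
      rw [div_div, div_le_div_iff₀ (by positivity) (by norm_num)]
      linarith only [this]
    have h3 : ∀ u, (w0 * s.W u) ^ 40 ≤ 1 / y ^ 40 := fun u => by
      have := pow_le_pow_left₀ (hx.om0 u).le (hx.om u) 40
      rwa [div_pow, one_pow] at this
    have h4 : (w0 * s.W z) ^ 40 * 2 + (1 + 1 / (100 * w0) / s.W z) * (w0 * s.W t) ^ 40 ≤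
        y ^ 2 * (1 / y ^ 40) := by
      have b1 := mul_le_mul (add_le_add (le_refl 1) h2) (h3 t) (pow_pos (hx.om0 t) _).le
        (by positivity)
      have b2 : 3 + y ^ 2 / 100 ≤ y ^ 2 := by nlinarith only [hy]
      have b3 := mul_le_mul_of_nonneg_right b2 (show 0 ≤ 1 / y ^ 40 by positivity)
      linarith only [h3 z, b1, b3]
    have h5 := mul_le_mul he h4 (by have := hx.om0 t; positivity) (by positivity)
    calc _ = w0 ^ 40 * (s.W z ^ 40 *
          s.toKer.Z L (fun l => s.toKer.P l ≤ 1 / (100 * w0)) z t) := by ring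
      _ ≤ _ := h1
      _ = _ := by ring
      _ ≤ _ := h5
      _ = 1 / y ^ 2 / y ^ 48 := by field_simp
      _ ≤ _ := div_le_div_of_nonneg_right (not_le.1 h).le (by positivity)

theorem k5_num {y d P : ℝ} (y0 : 0 < y) (hP : 1 / (10 * (2 ^ 46 * y ^ 47)) ≤ P)
    (hd : 2 ^ 54 ≤ d ^ 2 * y) : 16 / y ^ 48 ≤ d ^ 2 * P := by
  refine le_trans ?_ (mul_le_mul_of_nonneg_left hP (sq_nonneg d))
  rw [mul_one_div, div_le_div_iff₀ (by positivity) (by positivity)]
  have := mul_le_mul_of_nonneg_right hd (pow_pos y0 47).le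
  have e : d ^ 2 * y * y ^ 47 = d ^ 2 * y ^ 48 := by ring
  have := pow_pos y0 47
  linarith

theorem Extra.rst (hx : Extra s μ w0 y) (hy : 2 ^ 20 ≤ y) (he : s.e ≤ 1 / y ^ 12)
    (μ0 : ∀ c, 0 ≤ μ c) (L : ℕ) {t : V} (ht : t ∈ s.A)
    (hP : 1 / (10 * (2 ^ 46 * y ^ 47)) ≤ s.Pt μ L (1 / (100 * w0)) t) {d : ℝ} (hd0 : 0 ≤ d)
    (hd : 2 ^ 54 ≤ d ^ 2 * y) (φ : V → ℝ) (φ0 : ∀ u, 0 ≤ φ u) (hφ : ∑ u, φ u ^ 2 ≤ 1) :
    ∑ c, μ c * ∑ l ∈ lists V L, ind (s.toKer.P l ≤ 1 / (100 * w0)) * qw s.Q c l t *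
      (φ c + ls φ l) ≤ d / 2 * s.Pt μ L (1 / (100 * w0)) t := by
  have y2 : 2 ≤ y := le_trans (by norm_num) hy
  have y0 : 0 < y := by linarith only [hy]
  have d0 : 0 < d := hd0.lt_of_ne fun h => by rw [← h] at hd; norm_num at hd
  set ψ : V → ℝ := fun u => φ u ^ 2 / (d * (w0 * s.W u)) with hψ
  have ψ0 : ∀ u, 0 ≤ ψ u := fun u => div_nonneg (sq_nonneg _) (mul_pos d0 (hx.om0 u)).le
  have e : ∑ c, μ c * ∑ l ∈ lists V L, ind (s.toKer.P l ≤ 1 / (100 * w0)) * qw s.Q c l t *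
      (φ c + ls φ l) = s.toKer.NK L (1 / (100 * w0)) μ (fun u v => (φ u - ψ u) * s.Q u v) t +
        s.toKer.NK L (1 / (100 * w0)) μ (fun u v => ψ u * s.Q u v) t := by
    rw [← Ker.NK_add]
    simp only [← add_mul, sub_add_cancel, Ker.NK, Ker.TK, qm_restart]
    exact sum_congr rfl fun c _ => congrArg _ (sum_congr rfl fun l _ => by ring)
  have pt : ∀ u, φ u - ψ u ≤ d / 4 * (w0 * s.W u) := fun u => by
    have o := mul_pos d0 (hx.om0 u)
    rw [sub_le_comm, hψ, le_div_iff₀ o]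
    nlinarith [sq_nonneg (φ u - d * (w0 * s.W u) / 2)]
  have h1 := s.toKer.NK_path (L := L) (s := 1 / (100 * w0)) (t := t) μ0 (fun u => φ u - ψ u)
    (b := d / 4) fun c l hl => by
      have a := lsum_mono (l := l) fun u _ => pt u
      rw [List.sum_map_mul_left] at a
      have b := mul_le_mul_of_nonneg_left (hx.path y2 c l hl) (show 0 ≤ d / 4 by positivity)
      have := pt c
      unfold ls at b ⊢
      linarith only [a, b, this]
  have h2 := s.toKer.NK_le (L := L) (s := 1 / (100 * w0)) (t := t)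
    (κ := fun u v => ψ u * s.Q u v) (fun u => (pow_pos (hx.om0 u) 40).le) hx.S3
    fun u v => mul_nonneg (ψ0 u) (s.Q0 u v)
  have h3 : ∑ c, (w0 * s.W c) ^ 40 * s.toKer.FK L (1 / (100 * w0))
      (fun u v => ψ u * s.Q u v) t c ≤ ∑ c, φ c ^ 2 / (d * y ^ 48) := sum_le_sum fun c _ => by
    rw [Ker.FK_restart, mul_left_comm]
    refine (mul_le_mul_of_nonneg_left (hx.spread y2 he L ht c) (ψ0 c)).trans (le_of_eq ?_)
    have := hx.w0p
    have := s.toKer.Wpos c
    simp only [hψ]; field_simp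
  rw [← sum_div] at h3
  have h4 := div_le_div_of_nonneg_right hφ (show 0 ≤ d * y ^ 48 by positivity)
  have h5 : 1 / (d * y ^ 48) ≤ d / 4 * s.Pt μ L (1 / (100 * w0)) t := by
    have := k5_num y0 hP hd
    rw [div_le_iff₀ (by positivity)] at this ⊢
    linarith only [this]
  have hP' : s.Pt μ L (1 / (100 * w0)) t = s.toKer.PK L (1 / (100 * w0)) μ t := rfl
  rw [e]
  rw [hP'] at h5 ⊢
  linarith only [h1, h2, h3, h4, h5]

theorem Extra.mid (hx : Extra s μ w0 y) (hy : 2 ^ 20 ≤ y) (heps : s.eps ≤ 2 / y ^ 9)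
    (μ0 : ∀ c, 0 ≤ μ c) (L : ℕ) {t : V} (ht : t ∈ s.A)
    (hP : 1 / (10 * (2 ^ 46 * y ^ 47)) ≤ s.Pt μ L (1 / (100 * w0)) t) {d : ℝ} (hd0 : 0 ≤ d)
    (hd : 2 ^ 54 ≤ d ^ 2 * y) (φ : V → ℝ) (hφ : ∑ u, φ u ^ 2 ≤ 1) :
    ∑ c, μ c * ∑ l ∈ lists V L, ind (s.toKer.P l ≤ 1 / (100 * w0)) *
      qm s.Q (s.c φ) c l t ≤ d / 2 * s.Pt μ L (1 / (100 * w0)) t := by
  have y2 : 2 ≤ y := le_trans (by norm_num) hy
  have y0 : 0 < y := by linarith only [hy]
  have P0 : 0 ≤ s.Pt μ L (1 / (100 * w0)) t := le_trans (by positivity) hP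
  have i0 : ∀ (a : V × V) u v, 0 ≤ ind (u = a.1) * ind (v = a.2) := fun a u v =>
    mul_nonneg (ind_nonneg _) (ind_nonneg _)
  have l0 : ∀ u, 0 ≤ (w0 * s.W u) ^ 40 := fun u => (pow_pos (hx.om0 u) _).le
  change s.toKer.NK L (1 / (100 * w0)) μ (s.c φ) t ≤ _
  rw [Ker.NK_lin]
  refine s.mid_le hx.w0p (by positivity) hx.om _ (fun a => s.toKer.NK_nonneg μ0 (i0 a))
    (fun a => ?_) (E := s.Pt μ L (1 / (100 * w0)) t) ?_ (by positivity) ?_ φ hφ
  · refine (s.toKer.NK_le l0 hx.S3 (i0 a)).trans ((sum_le_sum fun c _ => mul_le_mul_of_nonneg_left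
      ((s.toKer.FK_le (i0 a) c).trans (sum_le_sum fun z _ => mul_le_of_le_one_right (i0 a c z)
        (k5_abs1 s L _ z ht))) (l0 c)).trans (le_of_eq ?_))
    rw [← sum_delta (fun u _ => (w0 * s.W u) ^ 40) a.1 a.2, Fintype.sum_prod_type]
    simp only [mul_sum, eq_comm]
  · rw [← s.toKer.NK_lin fun u v => w0 * s.W u * s.Q u v]
    exact (s.toKer.NK_path μ0 _ (hx.path y2)).trans (one_mul _).le
  · have a := mul_le_mul_of_nonneg_right (k5_num y0 hP hd) P0
    have b := mul_le_mul_of_nonneg_right heps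
      (show 0 ≤ (1 / y) ^ 39 * s.Pt μ L (1 / (100 * w0)) t by positivity)
    have e : 2 / y ^ 9 * ((1 / y) ^ 39 * s.Pt μ L (1 / (100 * w0)) t) =
        16 / y ^ 48 * s.Pt μ L (1 / (100 * w0)) t / 8 := by field_simp; ring
    linarith only [a, b, e]

theorem Extra.link (hx : Extra s μ w0 y) (hy : 2 ^ 20 ≤ y) (he : s.e ≤ 1 / y ^ 12)
    (heps : s.eps ≤ 2 / y ^ 9) (μ0 : ∀ c, 0 ≤ μ c) {x0 : V} (hμ : ∀ c, 0 < μ c → D x0 c)
    (L : ℕ) {t : V} (ht : t ∈ s.A)
    (hP : 1 / (10 * (2 ^ 46 * y ^ 47)) ≤ s.Pt μ L (1 / (100 * w0)) t) {d : ℝ} (hd0 : 0 ≤ d)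
    (hd : 2 ^ 54 ≤ d ^ 2 * y) : Link D x0 t d := by
  intro φ φ0 hφ
  have y0 : 0 < y := lt_of_lt_of_le (by norm_num) hy
  refine s.walk_avg (L := L) (s0 := 1 / (100 * w0)) μ0 hμ φ0
    (lt_of_lt_of_le (by positivity) hP) ?_
  have a := hx.rst hy he μ0 L ht hP hd0 hd φ φ0 hφ
  have b := hx.mid hy heps μ0 L ht hP hd0 hd φ hφ
  have e : s.toKer.NK L (1 / (100 * w0)) μ (fun u v => φ u * s.Q u v) t =
      ∑ c, μ c * ∑ l ∈ lists V L, ind (s.toKer.P l ≤ 1 / (100 * w0)) * qw s.Q c l t *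
        (φ c + ls φ l) := by
    simp only [Ker.NK, Ker.TK, qm_restart]
    exact sum_congr rfl fun c _ => congrArg _ (sum_congr rfl fun l _ => by ring)
  rw [e]
  exact (add_le_add a b).trans (le_of_eq (by rw [← add_mul, add_halves]; rfl))

omit [DecidableEq V] in
theorem card_heavy {ρ : V → ℝ} (hy : 0 < y) (ρ1 : ∑ u, ρ u ^ 2 ≤ 2 ^ 46 * y ^ 41) :
    ∑ u, ind (1 / y ^ 3 ≤ ρ u) ≤ 2 ^ 46 * y ^ 47 := by
  have h : ∀ u, ind (1 / y ^ 3 ≤ ρ u) ≤ y ^ 6 * ρ u ^ 2 := fun u => by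
    have := ind_mul_le (p := 1 / y ^ 3 ≤ ρ u) (a := 1) (b := y ^ 6 * ρ u ^ 2) (by positivity)
      fun h => by
        have := mul_le_mul_of_nonneg_left (pow_le_pow_left₀ (by positivity) h 2) (pow_pos hy 6).le
        rwa [show y ^ 6 * (1 / y ^ 3) ^ 2 = 1 by field_simp] at this
    rwa [mul_one] at this
  refine (sum_le_sum fun u _ => h u).trans ?_
  rw [← mul_sum]
  exact (mul_le_mul_of_nonneg_left ρ1 (pow_pos hy 6).le).trans (le_of_eq (by ring))

omit [Fintype V] [DecidableEq V] in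
theorem k5_last {Q : V → V → ℝ} (h : ∀ x y, 0 ≤ Q x y) (t : V) : ∀ (l : List V) (x : V),
    0 < qw Q x l t → ∃ z, 0 < Q z t
  | [], x, a => ⟨x, a⟩
  | z :: l, x, a => k5_last h t l z (pos_of_mul_pos_right a (h x z))

/-- `p t = ind (1 / y^3 ≤ ρ t ∧ 1 / (10 * (2^46 * y^47)) ≤ Pt t) * Pt t` -/
theorem partS (hx : Extra s μ w0 y) (hy : 2 ^ 20 ≤ y) (he : s.e ≤ 1 / y ^ 12)
    (heps : s.eps ≤ 2 / y ^ 9) {S : Finset V} {ρ : V → ℝ}
    (hA : ∀ u, u ∈ s.A ↔ u ∈ S ∨ 1 / y ^ 3 ≤ ρ u) (ρ0 : ∀ u, 0 ≤ ρ u)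
    (ρ1 : ∑ u, ρ u ^ 2 ≤ 2 ^ 46 * y ^ 41) {x0 : V} (hc : Cert D x0 S ρ (1 / 4))
    (μ0 : ∀ c, 0 ≤ μ c) (μ1 : ∑ c, μ c = 1) (hμ : ∀ c, 0 < μ c → D x0 c ∧ c ∉ s.A) (L : ℕ)
    (hL : 1 / (100 * w0) < L + 1) {R η : ℝ} (hR : 128 ≤ R) (hη0 : 0 ≤ η)
    (hη : η ≤ 1 / 800 ^ 42) (hv : ∀ j : ℕ, ¬ s.toKer.Vf L R η (2 ^ j)) {d : ℝ} (hd0 : 0 ≤ d)
    (hd : 2 ^ 54 ≤ d ^ 2 * y) :
    ∃ p : V → ℝ, (∀ t, 0 ≤ p t ∧ p t ≤ 1 / y ^ 40) ∧ 3 / 4 ≤ ∑ t, p t ∧
      ∀ t, 0 < p t → 1 / y ^ 3 ≤ ρ t ∧ Link D x0 t d ∧ ∃ u ∉ S, D u t := by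
  have y0 : 0 < y := lt_of_lt_of_le (by norm_num) hy
  have w0p := hx.w0p
  set b : ℝ := 1 / (10 * (2 ^ 46 * y ^ 47)) with hb
  have b0 : 0 < b := by positivity
  set P : V → ℝ := s.Pt μ L (1 / (100 * w0)) with hP
  have P0 : ∀ t, 0 ≤ P t := fun t => s.toKer.PK_nonneg μ0
  refine ⟨fun t => ind (1 / y ^ 3 ≤ ρ t ∧ b ≤ P t) * P t, fun t =>
    ⟨mul_nonneg (ind_nonneg _) (P0 t), ind_mul_le (by positivity) fun _ => ?_⟩, ?_, fun t ht => ?_⟩
  · have a := s.toKer.green μ _ μ0 (fun u => (pow_pos (hx.om0 u) 40).le) hx.S3 L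
      (fun _ l => s.toKer.P l ≤ 1 / (100 * w0)) t
    have c := pow_le_pow_left₀ (hx.om0 t).le (hx.om t) 40
    rw [div_pow, one_pow] at c
    exact le_trans (le_add_of_nonneg_left (μ0 t)) (a.trans c)
  · have h7 : 1 / y ≤ 1 / 2 ^ 20 := one_div_le_one_div_of_le (by norm_num) hy
    have h1 : ∑ c, μ c * (97 / 100) ≤ ∑ t ∈ s.A, P t := by
      simp only [hP, Sys.Pt]
      rw [sum_comm (s := s.A)]
      refine sum_le_sum fun c _ => ?_
      rw [← mul_sum]
      rcases (μ0 c).eq_or_lt with e | e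
      · rw [← e, zero_mul, zero_mul]
      refine mul_le_mul_of_nonneg_left ?_ e.le
      have a := s.toKer.cons s.A w0 w0p.le hx.rowE L (1 / (100 * w0)) (by positivity) hL c
        (hμ c e).2
      rw [mul_add, show w0 * (1 / (100 * w0)) = 1 / 100 by field_simp] at a
      linarith only [hx.sur (le_trans (by norm_num) hy) L hR hη0 hη hv c, hx.om c, h7, a]
    rw [← sum_mul, μ1] at h1
    have h2 := hx.light hy heps (fun u h => (hA u).2 (Or.inl h)) ρ0 ρ1
      (fun u h => not_le.1 fun h' => h ((hA u).2 (Or.inr h'))) hc μ0 hμ L (1 / (100 * w0))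
    have h3 := mul_le_mul_of_nonneg_right (card_heavy y0 ρ1) b0.le
    rw [show 2 ^ 46 * y ^ 47 * b = 1 / 10 by rw [hb]; field_simp, sum_mul] at h3
    rw [← sum_filter_add_sum_filter_not s.A (· ∈ S)] at h1
    have h4 : ∀ t, 1 / y ^ 3 ≤ ρ t →
        P t ≤ ind (1 / y ^ 3 ≤ ρ t ∧ b ≤ P t) * P t + ind (1 / y ^ 3 ≤ ρ t) * b := fun t h => by
      rw [ind_of h]
      by_cases h' : b ≤ P t
      · rw [ind_of ⟨h, h'⟩]; linarith only [b0]
      · rw [ind_not fun q => h' q.2]; linarith only [h']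
    set g : V → ℝ := fun t =>
      ind (1 / y ^ 3 ≤ ρ t ∧ b ≤ P t) * P t + ind (1 / y ^ 3 ≤ ρ t) * b with hg
    have g0 : ∀ t, 0 ≤ g t := fun t =>
      add_nonneg (mul_nonneg (ind_nonneg _) (P0 t)) (mul_nonneg (ind_nonneg _) b0.le)
    have h5 : ∑ t ∈ s.A with t ∈ S, P t ≤
        ∑ t ∈ s.A with t ∈ S, (g t + ind (ρ t < 1 / y ^ 3) * P t) := sum_le_sum fun t _ => by
      by_cases h : 1 / y ^ 3 ≤ ρ t
      · linarith only [h4 t h, mul_nonneg (ind_nonneg (ρ t < 1 / y ^ 3)) (P0 t)]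
      · rw [ind_of (not_le.1 h)]; linarith only [g0 t]
    have h6 : ∑ t ∈ s.A with ¬ t ∈ S, P t ≤ ∑ t ∈ s.A with ¬ t ∈ S, g t :=
      sum_le_sum fun t ht => h4 t (((hA t).1 (mem_filter.1 ht).1).resolve_left (mem_filter.1 ht).2)
    have h8 := sum_filter_add_sum_filter_not s.A (· ∈ S) g
    have h9 : ∑ t ∈ s.A, g t ≤ ∑ t, g t := sum_le_univ_sum_of_nonneg g0
    have h10 : ∑ t ∈ s.A with t ∈ S, ind (ρ t < 1 / y ^ 3) * P t ≤
        ∑ t ∈ S, ind (ρ t < 1 / y ^ 3) * P t := sum_le_sum_of_subset_of_nonneg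
      (fun t h => (mem_filter.1 h).2) fun t _ _ => mul_nonneg (ind_nonneg _) (P0 t)
    rw [sum_add_distrib] at h5
    have h11 : ∑ t, g t = _ := sum_add_distrib
    linarith only [h1, h2, h3, h5, h6, h8, h9, h10, h11]
  · have h : 1 / y ^ 3 ≤ ρ t ∧ b ≤ P t := by
      by_contra h
      simp only [ind_not h, zero_mul, lt_self_iff_false] at ht
    refine ⟨h.1, hx.link hy he heps μ0 (fun c e => (hμ c e).1) L ((hA t).2 (Or.inr h.1)) h.2 hd0
      hd, ?_⟩
    obtain ⟨c, -, e⟩ := exists_ne_zero_of_sum_ne_zero (b0.trans_le h.2).ne'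
    obtain ⟨l, -, a⟩ := Ker.Z_pos _
      ((s.toKer.Z_nonneg _ _ _ _).lt_of_ne (right_ne_zero_of_mul e).symm)
    obtain ⟨z, hz⟩ := k5_last s.Q0 t l c a
    obtain ⟨u, h1, h2⟩ := hx.M4 z t hz
    exact ⟨u, fun q => h1 ((hA u).2 (Or.inl q)), h2⟩

end Pool.Agent.MP_114209_co.H79

/-! Section 6: the chain of stages. -/

namespace Pool.Agent.MP_114209_co.H79

open Finset
open scoped Classical

section
variable {V : Type} [Fintype V] {D : V → V → Prop}

theorem k6a_bad (L : Finset V) (w : V → ℝ) {β c : ℝ} (hβ : 0 < β) (hc : 0 < c)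
    (hL : (L.card : ℝ) ≤ β) (ws : ∀ z, 0 < w z → z ∈ L) :
    ∑ z, (if 1 / (c * β) ≤ w z then 0 else w z) ≤ 1 / c := by
  have hθ : 0 < 1 / (c * β) := by positivity
  calc _ ≤ ∑ z, (if z ∈ L then 1 / (c * β) else 0) := by
        refine sum_le_sum fun z _ => ?_
        by_cases h1 : 1 / (c * β) ≤ w z
        · rw [if_pos h1]; split_ifs <;> linarith only [hθ]
        · rw [if_neg h1]
          by_cases h2 : z ∈ L
          · rw [if_pos h2]; exact (not_le.1 h1).le
          · rw [if_neg h2]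
            by_contra h3
            exact h2 (ws z (not_le.1 h3))
    _ = L.card * (1 / (c * β)) := by
        rw [← sum_filter, filter_mem_eq_inter, univ_inter, sum_const, nsmul_eq_mul]
    _ ≤ β * (1 / (c * β)) := mul_le_mul_of_nonneg_right hL hθ.le
    _ = 1 / c := by field_simp

theorem k6a_src (n : ℕ) (Lv : ℕ → Finset V) (p : ℕ → V → V → ℝ) (α β : ℕ → ℝ) {d b c : ℝ}
    (hd : 0 ≤ d) (hb0 : 0 ≤ b) (hc : 0 < c) (hα : ∀ k < n, 0 ≤ α k)
    (hp : ∀ k < n, ∀ x ∈ Lv (k + 1), (∀ t, 0 ≤ p k x t ∧ p k x t ≤ α k) ∧ ∑ t, p k x t = 1 ∧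
      ∀ t, 0 < p k x t → t ∈ Lv k ∧ Link D x t d)
    (hβ : ∀ k < n, 0 < β k ∧ ((Lv k).card : ℝ) ≤ β k)
    (hb : ∀ i, i + 1 < n → α (i + 1) * α i * (c * β i) ≤ b ^ 2) (x : V) :
    ∀ m < n, ∀ (w : V → ℝ) (e : ℝ), (∀ z, 0 ≤ w z ∧ w z ≤ α m) → ∑ z, w z ≤ 1 →
      (∀ z, 0 < w z → z ∈ Lv m) → (∀ z, 1 / (c * β m) ≤ w z → Link D x z e) →
      ∃ f : ℕ → V → ℝ, (∀ i z, 0 ≤ f i z) ∧ ∑ z, w z * f m z ≤ (m + 1) / c ∧
        (∀ i < m, ∀ z, f (i + 1) z < 1 → ∑ t, p i z t * f i t ≤ f (i + 1) z) ∧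
        ∀ i ≤ m, ∀ z, f i z < 1 → Link D x z (e + m * (d + b)) := by
  intro m
  induction m with
  | zero =>
    intro hm w e hw h1 hs hl
    refine ⟨fun _ z => if 1 / (c * β 0) ≤ w z then 0 else 1, fun i z => ?_, ?_,
      fun i hi => absurd hi (Nat.not_lt_zero i), fun i _ z hz => ?_⟩
    · dsimp only; split_ifs <;> norm_num
    · have := k6a_bad (Lv 0) w (hβ 0 hm).1 hc (hβ 0 hm).2 hs
      simpa only [one_div, mul_inv_rev, mul_ite, mul_zero, mul_one, CharP.cast_eq_zero, zero_add, ge_iff_le] using this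
    · by_cases h : 1 / (c * β 0) ≤ w z
      · simpa using hl z h
      · simp only [if_neg h] at hz; exact absurd hz (lt_irrefl _)
  | succ m ih =>
    intro hm w e hw h1 hs hl
    have hm' : m < n := Nat.lt_of_succ_lt hm
    have hθ : 0 < 1 / (c * β (m + 1)) := by have := (hβ _ hm).1; positivity
    have hθ' : 0 < 1 / (c * β m) := by have := (hβ _ hm').1; positivity
    set g : V → ℝ := fun z => if 1 / (c * β (m + 1)) ≤ w z then w z else 0 with hg
    have g0 : ∀ z, 0 ≤ g z ∧ g z ≤ w z := fun z => by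
      have := (hw z).1
      simp only [hg]; split_ifs <;> constructor <;> linarith
    have gp : ∀ z, 0 < g z → 1 / (c * β (m + 1)) ≤ w z ∧ z ∈ Lv (m + 1) := fun z hz => by
      have h : 1 / (c * β (m + 1)) ≤ w z := by
        by_contra h; simp only [hg, if_neg h] at hz; exact lt_irrefl _ hz
      exact ⟨h, hs z (hθ.trans_le h)⟩
    have gt : ∀ z t, 0 ≤ g z * p m z t ∧ g z * p m z t ≤ g z * α m := fun z t => by
      rcases (g0 z).1.eq_or_lt with h | h
      · rw [← h]; simp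
      · have := (hp m hm' z (gp z h).2).1 t
        exact ⟨mul_nonneg h.le this.1, mul_le_mul_of_nonneg_left this.2 h.le⟩
    have gt' : ∀ z t, 0 < g z * p m z t → 0 < g z ∧ 0 < p m z t := fun z t h => by
      rcases (g0 z).1.eq_or_lt with h' | h'
      · rw [← h'] at h; simp at h
      · exact ⟨h', (pos_iff_pos_of_mul_pos h).1 h'⟩
    have g1 : ∑ z, g z ≤ 1 := (sum_le_sum fun z _ => (g0 z).2).trans h1
    obtain ⟨f, f0, f1, f2, f3⟩ := ih hm' (fun t => ∑ z, g z * p m z t) (e + d + b)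
      (fun t => ⟨sum_nonneg fun z _ => (gt z t).1, by
        calc _ ≤ ∑ z, g z * α m := sum_le_sum fun z _ => (gt z t).2
          _ = (∑ z, g z) * α m := by rw [sum_mul]
          _ ≤ 1 * α m := mul_le_mul_of_nonneg_right g1 (hα m hm')
          _ = α m := one_mul _⟩)
      (by
        rw [sum_comm]
        refine (sum_le_sum fun z _ => ?_).trans g1
        rcases (g0 z).1.eq_or_lt with h | h
        · rw [← h]; simp only [zero_mul, sum_const_zero, Std.le_refl]
        · rw [← mul_sum, (hp m hm' z (gp z h).2).2.1, mul_one])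
      (fun t ht => by
        obtain ⟨z, -, hz⟩ := exists_lt_of_sum_lt (f := fun _ => (0 : ℝ)) (by simpa only [sum_const_zero] using ht)
        exact ((hp m hm' z (gp z (gt' z t hz).1).2).2.2 t (gt' z t hz).2).1)
      (fun t ht => by
        have hpos : 0 < ∑ z, g z * p m z t := hθ'.trans_le ht
        have := comp (D := D) (x := x) (y := t) (fun z => g z * p m z t / ∑ z, g z * p m z t)
          (b := b ^ 2) (d₁ := e) (d₂ := d) (fun z => div_nonneg (gt z t).1 hpos.le)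
          (by rw [← sum_div, div_self hpos.ne']) (fun z => by
            have a1 : g z * p m z t ≤ α (m + 1) * α m :=
              (gt z t).2.trans (mul_le_mul_of_nonneg_right ((g0 z).2.trans (hw z).2) (hα m hm'))
            have a2 := hb m hm
            have a3 : 0 < c * β m := by have := (hβ _ hm').1; positivity
            rw [div_le_iff₀ hpos]
            rw [div_le_iff₀ a3] at ht
            have a4 : 0 ≤ α (m + 1) * α m := (gt z t).1.trans a1
            linarith only [mul_le_mul_of_nonneg_left ht a4, mul_le_mul_of_nonneg_left a2 hpos.le, a1])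
          (fun z hz => by
            have h := gt' z t ((div_pos_iff_of_pos_right hpos).1 hz)
            exact ⟨hl z (gp z h.1).1, ((hp m hm' z (gp z h.1).2).2.2 t h.2).2⟩)
        rwa [Real.sqrt_sq hb0] at this)
    refine ⟨fun i z => if i = m + 1 then
        (if 1 / (c * β (m + 1)) ≤ w z then ∑ t, p m z t * f m t else 1) else f i z,
      fun i z => ?_, ?_, fun i hi z hz => ?_, fun i hi z hz => ?_⟩
    · dsimp only
      split_ifs with a1 a2
      · exact sum_nonneg fun t _ =>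
          mul_nonneg ((hp m hm' z (hs z (hθ.trans_le a2))).1 t).1 (f0 m t)
      · exact zero_le_one
      · exact f0 i z
    · have a1 := k6a_bad (Lv (m + 1)) w (hβ _ hm).1 hc (hβ _ hm).2 hs
      have a2 : ∑ t, (∑ z, g z * p m z t) * f m t = ∑ z, g z * ∑ t, p m z t * f m t := by
        simp only [sum_mul, mul_sum]
        rw [sum_comm]
        exact sum_congr rfl fun z _ => sum_congr rfl fun t _ => by ring
      rw [a2] at f1
      simp only [if_true]
      calc _ = ∑ z, g z * ∑ t, p m z t * f m t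
            + ∑ z, (if 1 / (c * β (m + 1)) ≤ w z then 0 else w z) := by
            rw [← sum_add_distrib]
            refine sum_congr rfl fun z _ => ?_
            simp only [hg]
            split_ifs <;> ring
        _ ≤ (m + 1) / c + 1 / c := add_le_add f1 a1
        _ = _ := by push_cast; ring
    · have hi' : i ≠ m + 1 := by omega
      simp only [if_neg hi']
      by_cases a1 : i + 1 = m + 1
      · have a2 : i = m := by omega
        subst a2
        simp only [if_true] at hz ⊢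
        split_ifs at hz ⊢ with a3
        · exact le_rfl
        · exact absurd hz (lt_irrefl _)
      · simp only [if_neg a1] at hz ⊢
        exact f2 i (by omega) z hz
    · have hm0 : (0 : ℝ) ≤ m := Nat.cast_nonneg m
      by_cases a1 : i = m + 1
      · simp only [if_pos a1] at hz
        by_cases a3 : 1 / (c * β (m + 1)) ≤ w z
        · refine (hl z a3).mono ?_
          push_cast
          nlinarith only [hd, hb0]
        · rw [if_neg a3] at hz; exact absurd hz (lt_irrefl _)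
      · simp only [if_neg a1] at hz
        refine (f3 i (by omega) z hz).mono (le_of_eq ?_)
        push_cast
        ring

theorem k6a_run (n : ℕ) (Lv : ℕ → Finset V) (p : ℕ → V → V → ℝ) {L δ : ℝ} (hδ : 0 ≤ δ)
    (hp : ∀ k < n, ∀ x ∈ Lv (k + 1), (∀ t, 0 ≤ p k x t) ∧ ∑ t, p k x t = 1 ∧
      (∀ t, 0 < p k x t → t ∈ Lv k) ∧
      ∃ f : ℕ → V → ℝ, (∀ i z, 0 ≤ f i z) ∧ ∑ z, p k x z * f k z ≤ δ ∧
        (∀ i < k, ∀ z, f (i + 1) z < 1 → ∑ t, p i z t * f i t ≤ f (i + 1) z) ∧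
        ∀ i ≤ k, ∀ z, f i z < 1 → Link D x z L) :
    ∀ m ≤ n, ∀ x ∈ Lv m, ∀ Φ : ℕ → V → ℝ, (∀ i z, 0 ≤ Φ i z) →
      (∀ i < m, ∀ z, Φ (i + 1) z < 1 → ∑ t, p i z t * Φ i t ≤ Φ (i + 1) z) →
      Φ m x + m * δ < 1 →
      ∃ t : ℕ → V, (∀ k ≤ m, t k ∈ Lv k ∧ Φ k (t k) < 1) ∧
        ∀ j k, j < k → k ≤ m → Link D (t k) (t j) L := by
  intro m
  induction m with
  | zero =>
    intro _ x hx Φ _ _ h
    refine ⟨fun _ => x, fun k hk => ?_, fun j k h1 h2 => by omega⟩
    obtain rfl : k = 0 := by omega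
    exact ⟨hx, by simpa using h⟩
  | succ m ih =>
    intro hm x hx Φ Φ0 Φ1 h
    obtain ⟨p0, p1, p2, f, f0, f1, f2, f3⟩ := hp m (by omega) x hx
    have hm0 : (0 : ℝ) ≤ m := Nat.cast_nonneg m
    push_cast at h
    have hx1 : Φ (m + 1) x < 1 := by nlinarith only [hδ, h]
    obtain ⟨z, -, hz, hz'⟩ := exists_le_avg univ (p m x) (fun z => Φ m z + f m z)
      (fun z _ => p0 z) (by rw [p1]; exact one_pos) (d := Φ (m + 1) x + δ) (by
        have := Φ1 m (by omega) x hx1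
        simp only [mul_add, sum_add_distrib, p1]
        linarith only [f1, this])
    obtain ⟨t, t1, t2⟩ := ih (by omega) z (p2 z hz) (fun i u => Φ i u + f i u)
      (fun i u => add_nonneg (Φ0 i u) (f0 i u))
      (fun i hi u hu => by
        have a1 := Φ1 i (by omega) u (by have := f0 (i + 1) u; linarith only [hu, this])
        have a2 := f2 i hi u (by have := Φ0 (i + 1) u; linarith only [hu, this])
        simp only [mul_add, sum_add_distrib]
        linarith only [a1, a2])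
      (by linarith only [h, hz'])
    refine ⟨fun k => if k = m + 1 then x else t k, fun k hk => ?_, fun j k h1 h2 => ?_⟩
    · by_cases a : k = m + 1
      · subst a; simp only [if_true]; exact ⟨hx, hx1⟩
      · simp only [if_neg a]
        have := t1 k (by omega)
        exact ⟨this.1, by have := f0 k (t k); linarith [this, (t1 k (by omega)).2]⟩
    · have hj : j ≠ m + 1 := by omega
      simp only [if_neg hj]
      by_cases a : k = m + 1
      · simp only [if_pos a]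
        exact f3 j (by omega) _ (by have := Φ0 j (t j); linarith only [(t1 j (by omega)).2, this])
      · simp only [if_neg a]
        exact t2 j k h1 (by omega)

theorem chain (n : ℕ) (Lv : ℕ → Finset V) (p : ℕ → V → V → ℝ) (α β : ℕ → ℝ) {d b : ℝ}
    (hd : 0 ≤ d) (hb0 : 0 ≤ b) (top : V) (htop : top ∈ Lv n)
    (hp : ∀ k < n, ∀ x ∈ Lv (k + 1), (∀ t, 0 ≤ p k x t ∧ p k x t ≤ α k) ∧ ∑ t, p k x t = 1 ∧
      ∀ t, 0 < p k x t → t ∈ Lv k ∧ Link D x t d)
    (hβ : ∀ k < n, 0 < β k ∧ ((Lv k).card : ℝ) ≤ β k)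
    (hb : ∀ i, i + 1 < n → α (i + 1) * α i * (2 * ((n : ℝ) + 1) ^ 3 * β i) ≤ b ^ 2) :
    ∃ t : ℕ → V, (∀ k < n, t k ∈ Lv k) ∧
      ∀ j k, j < k → k < n → Link D (t k) (t j) (n * (d + b)) := by
  have hn0 : (0 : ℝ) ≤ n := Nat.cast_nonneg n
  have hc : (0 : ℝ) < 2 * ((n : ℝ) + 1) ^ 3 := by positivity
  have hne : ∀ s ≤ n, (Lv (n - s)).Nonempty := by
    intro s
    induction s with
    | zero => exact fun _ => ⟨top, htop⟩
    | succ s ih =>
      intro hs
      obtain ⟨x, hx⟩ := ih (by omega)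
      obtain ⟨a1, a2, a3⟩ := hp (n - (s + 1)) (by omega) x
        (by rwa [show n - (s + 1) + 1 = n - s by omega])
      obtain ⟨t, -, ht⟩ := exists_lt_of_sum_lt (s := univ) (f := fun _ => (0 : ℝ))
        (g := p (n - (s + 1)) x) (by rw [a2]; simp only [sum_const_zero, zero_lt_one])
      exact ⟨t, (a3 t ht).1⟩
  have hα : ∀ k < n, 0 ≤ α k := fun k hk => by
    obtain ⟨x, hx⟩ := hne (n - (k + 1)) (by omega)
    have := (hp k hk x (by rwa [show n - (n - (k + 1)) = k + 1 by omega] at hx)).1 x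
    exact this.1.trans this.2
  obtain ⟨t, t1, t2⟩ := k6a_run (D := D) n Lv p (L := n * (d + b))
    (δ := n / (2 * ((n : ℝ) + 1) ^ 3)) (by positivity) (fun k hk x hx => by
      obtain ⟨a1, a2, a3⟩ := hp k hk x hx
      have hk' : (k : ℝ) + 1 ≤ n := by exact_mod_cast hk
      obtain ⟨f, f0, f1, f2, f3⟩ := k6a_src n Lv p α β hd hb0 hc hα hp hβ hb x k hk (p k x) d a1
        a2.le (fun z hz => (a3 z hz).1) (fun z hz => (a3 z (lt_of_lt_of_le (by
          have := (hβ k hk).1; positivity) hz)).2)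
      refine ⟨fun t => (a1 t).1, a2, fun t ht => (a3 t ht).1, f, f0,
        f1.trans (div_le_div_of_nonneg_right hk' hc.le), f2, fun i hi z hz =>
          (f3 i hi z hz).mono ?_⟩
      nlinarith only [hd, hb0, hk'])
    n le_rfl top htop (fun _ _ => 0) (fun _ _ => le_rfl) (fun _ _ _ _ => by simp only [mul_zero, sum_const_zero, Std.le_refl]) (by
      rw [zero_add, ← mul_div_assoc, div_lt_one hc]
      linarith only [sq_nonneg (n : ℝ), mul_nonneg hn0 (sq_nonneg (n : ℝ)), hc])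
  exact ⟨t, fun k hk => (t1 k hk.le).1, fun j k h1 h2 => t2 j k h1 h2.le⟩

end

end Pool.Agent.MP_114209_co.H79

namespace Pool.Agent.MP_114209_co.H79

open Finset
open scoped Classical

section
variable {V : Type} [Fintype V] {D : V → V → Prop}

/-- one stage, one start: the conclusion `C` of a violation, or a spread distribution -/
theorem stage_out {C : Prop} {R η e1 : ℝ} (hR : 128 ≤ R) (hη0 : 0 ≤ η) (hη : η ≤ 1 / 800 ^ 42)
    (hH : ∀ (s : Sys D) (L : ℕ), s.e ≤ e1 → s.eps ≤ e1 →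
      (∃ j : ℕ, s.toKer.Vf L R η (2 ^ j) ∨ s.toKer.rev.Vf L R η (2 ^ j)) → C)
    {y d : ℝ} (hy : 2 ^ 20 ≤ y) (hy1 : 2 / y ^ 9 ≤ e1) (hd0 : 0 ≤ d) (hd : 2 ^ 54 ≤ d ^ 2 * y)
    (hK : ∀ w, 2 ^ 47 * y ^ 47 ≤ ((univ.filter (D w)).card : ℝ)) {S : Finset V} {ρ : V → ℝ}
    (ρ0 : ∀ u, 0 ≤ ρ u) (ρ1 : ∑ u, ρ u ^ 2 ≤ 2 ^ 45 * y ^ 41 + 1)
    (hfl : ∀ x ∉ S, ∃ g, IsFlow D x S (2 ^ 45 * y ^ 41) g) {x0 : V}
    (hc : Cert D x0 S ρ (1 / 4)) :
    C ∨ ∃ p : V → ℝ, (∀ t, 0 ≤ p t ∧ p t ≤ 1 / y ^ 40) ∧ 3 / 4 ≤ ∑ t, p t ∧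
      ∀ t, 0 < p t → 1 / y ^ 3 ≤ ρ t ∧ Link D x0 t d ∧ ∃ u ∉ S, D u t := by
  have y1 : (4 : ℝ) ≤ y := le_trans (by norm_num) hy
  have y0 : 0 < y := by linarith only [hy]
  have pw : ∀ {i j : ℕ}, i ≤ j → y ^ i ≤ y ^ j := fun h => pow_le_pow_right₀ (by linarith only [hy]) h
  have p41 : 1 ≤ y ^ 41 := one_le_pow₀ (by linarith only [hy])
  have ρ2 : ∑ u, ρ u ^ 2 ≤ 2 ^ 46 * y ^ 41 := by linarith only [ρ1, p41]
  have hB := card_heavy (V := V) y0 ρ2
  have h3 : 1 / y ^ 3 ≤ 1 / 4 := one_div_le_one_div_of_le (by norm_num)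
    (y1.trans (by simpa using pw (show 1 ≤ 3 by norm_num)))
  obtain ⟨A, hA⟩ : ∃ A : Finset V, ∀ u, u ∈ A ↔ u ∈ S ∨ 1 / y ^ 3 ≤ ρ u :=
    ⟨S ∪ univ.filter fun u => 1 / y ^ 3 ≤ ρ u, fun u => by simp only [mem_union, mem_filter,
      mem_univ, true_and]⟩
  obtain ⟨n, hn⟩ : ∃ n : ℝ, n = ∑ c, ind (D x0 c ∧ ρ c < 1 / y ^ 3) := ⟨_, rfl⟩
  have hn1 : 2 ^ 46 * y ^ 47 ≤ n := by
    have e1 : ((univ.filter (D x0)).card : ℝ) = ∑ c, ind (D x0 c) := by
      simp only [ind, sum_boole]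
    have e2 : ∑ c, ind (D x0 c) ≤ n + ∑ c, ind (1 / y ^ 3 ≤ ρ c) := by
      rw [hn, ← sum_add_distrib]
      refine sum_le_sum fun c _ => le_trans (ind_mono fun h => ?_) (ind_or_le _ _)
      exact (lt_or_ge (ρ c) (1 / y ^ 3)).imp (fun h' => ⟨h, h'⟩) id
    have e3 := hK x0
    linarith only [hB, e1, e2, e3]
  have p40 := pow_pos y0 40
  have hn2 : 4 * y ^ 40 ≤ n := by linarith only [pw (show 40 ≤ 47 by norm_num), hn1, p40]
  have n0 : 0 < n := by linarith only [p40, hn2]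
  have μ0 : ∀ c, 0 ≤ ind (D x0 c ∧ ρ c < 1 / y ^ 3) / n := fun c =>
    div_nonneg (ind_nonneg _) n0.le
  have μ1 : ∑ c, ind (D x0 c ∧ ρ c < 1 / y ^ 3) / n = 1 := by
    rw [← sum_div, ← hn, div_self n0.ne']
  have hμ : ∀ c, 0 < ind (D x0 c ∧ ρ c < 1 / y ^ 3) / n → D x0 c ∧ c ∉ A := fun c h => by
    have h1 : D x0 c ∧ ρ c < 1 / y ^ 3 := by
      by_contra h2
      rw [ind_not h2, zero_div] at h
      exact lt_irrefl _ h
    refine ⟨h1.1, fun h2 => ?_⟩
    rcases (hA c).1 h2 with h4 | h4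
    · have h5 := hc [c] ⟨by simpa using h1.1, by simpa using h4⟩
      simp only [List.map_cons, List.map_nil, List.sum_cons, List.sum_nil, add_zero] at h5
      linarith only [h1.2, h3, h5]
    · linarith only [h1.2, h4]
  obtain ⟨s, w0, sA, se, sp, hx⟩ := proc_ex (D := D) (A := A) (fun u h => (hA u).2 (Or.inl h))
    (by linarith only [hy] : 2 ≤ y) le_rfl hfl μ0 μ1.le fun u =>
      (div_le_div_of_nonneg_right (ind_le_one _) n0.le).trans
        (one_div_le_one_div_of_le (by positivity) hn2)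
  obtain ⟨L, hL⟩ := exists_nat_gt (1 / (100 * w0))
  by_cases hv : ∃ j : ℕ, s.toKer.Vf L R η (2 ^ j)
  · refine Or.inl (hH s L ?_ (sp.trans_le hy1) (hv.imp fun j h => Or.inl h))
    refine se.trans_le (le_trans ?_ hy1)
    exact (one_div_le_one_div_of_le (pow_pos y0 9) (pw (by norm_num))).trans
      (div_le_div_of_nonneg_right (by norm_num) (pow_pos y0 9).le)
  · exact Or.inr (partS hx hy se.le sp.le (by rw [sA]; exact hA) ρ0 ρ2 hc μ0 μ1
      (by rw [sA]; exact hμ) L (by linarith only [hL]) hR hη0 hη (fun j h => hv ⟨j, h⟩) hd0 hd)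

end

end Pool.Agent.MP_114209_co.H79

namespace Pool.Agent.MP_114209_co.H79

open Finset
open scoped Classical

section
variable {V : Type} [Fintype V] {D : V → V → Prop}

end

/-- `y k = y0 ^ (2 ^ k)`, `v k = 2^45 * y k ^ 41`, levels
`Lv k = {t ∈ B k, t ∉ B i for i < k, t has an in-neighbour outside S k}` -/
theorem tt_points (n : ℕ) (d : ℝ) (hd : 0 < d) : ∃ K : ℕ, ∀ (V : Type) [Fintype V] [Nonempty V]
    (D : V → V → Prop), (∀ w, ¬ D w w) → (∀ w, K ≤ (univ.filter (D w)).card) →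
    ∃ t : Fin n → V, Function.Injective t ∧ ∀ a b, a < b → Link D (t a) (t b) d := by
  obtain ⟨R, η, e1, hR, η0, hη, e0, hH⟩ := partH n d hd
  obtain ⟨b, hb⟩ : ∃ b : ℝ, b = d / (2 * (n + 1)) := ⟨_, rfl⟩
  have b0 : 0 < b := by rw [hb]; positivity
  obtain ⟨y0, c1, c2, c3, c4⟩ : ∃ y0 : ℝ, 2 ^ 20 ≤ y0 ∧ 2 / e1 ≤ y0 ∧
      2 ^ 54 * ((n : ℝ) + 1) ^ 3 / b ^ 2 ≤ y0 ∧ 2 ^ 48 * (n : ℝ) ≤ y0 := by
    have p1 : 0 ≤ 2 / e1 := by positivity
    have p2 : 0 ≤ 2 ^ 54 * ((n : ℝ) + 1) ^ 3 / b ^ 2 := by positivity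
    have p3 : 0 ≤ 2 ^ 48 * (n : ℝ) := mul_nonneg (pow_pos two_pos 48).le n.cast_nonneg
    exact ⟨2 ^ 20 + 2 / e1 + 2 ^ 54 * ((n : ℝ) + 1) ^ 3 / b ^ 2 + 2 ^ 48 * (n : ℝ), by linarith,
      by linarith only [p2], by linarith only [p1], by linarith⟩
  have y1 : 1 ≤ y0 := le_trans (by norm_num) c1
  obtain ⟨y, ys, ym, yl⟩ : ∃ y : ℕ → ℝ, (∀ k, y (k + 1) = y k ^ 2) ∧ Monotone y ∧ ∀ k, y0 ≤ y k :=
    ⟨fun k => y0 ^ 2 ^ k, fun k => by
      show y0 ^ 2 ^ (k + 1) = (y0 ^ 2 ^ k) ^ 2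
      rw [← pow_mul, ← pow_succ],
      fun i j h => pow_le_pow_right₀ y1 (Nat.pow_le_pow_right two_pos h),
      fun k => le_self_pow₀ y1 (by positivity)⟩
  have z1 : ∀ k, 1 ≤ y k := fun k => y1.trans (yl k)
  have z0 : ∀ k, 0 < y k := fun k => one_pos.trans_le (z1 k)
  have z20 : ∀ k, 2 ^ 20 ≤ y k := fun k => c1.trans (yl k)
  refine ⟨⌈2 ^ 47 * y n ^ 47⌉₊, fun V _ _ D hl hK => ?_⟩
  have hK' : ∀ k ≤ n, ∀ w, 2 ^ 47 * y k ^ 47 ≤ ((univ.filter (D w)).card : ℝ) := fun k h w =>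
    (mul_le_mul_of_nonneg_left (pow_le_pow_left₀ (z0 k).le (ym h) 47) (by positivity)).trans
      (Nat.ceil_le.1 (hK w))
  obtain ⟨S, x, ρ, h1, h2⟩ := stages hl (fun k => 2 ^ 45 * y k ^ 41) (fun k => by have := z0 k; positivity)
    (fun k => by
      have : (8 : ℝ) ≤ y k ^ 41 := le_trans (le_trans (by norm_num) (z20 k)) (le_self_pow₀ (z1 k) (by norm_num))
      simp only [ys, ← pow_mul, show 2 * 41 = 41 + 41 from rfl, pow_add]
      nlinarith only [this]) n (fun k h w => le_trans (mul_le_mul (by norm_num)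
        (pow_le_pow_right₀ (z1 k) (by norm_num)) (by have := z0 k; positivity) (by norm_num)) (hK' k h w))
  have hv : ∀ k ≤ n, ∑ u, ind (1 / y k ^ 3 ≤ ρ k u) ≤ 2 ^ 46 * y k ^ 47 := fun k h =>
    card_heavy (z0 k) ((h1 k h).2.2.1.trans (by linarith only [one_le_pow₀ (n := 41) (z1 k), η0, hη]))
  by_contra hC
  let Lv : ℕ → Finset V := fun k => if k < n then univ.filter fun t => 1 / y k ^ 3 ≤ ρ k t ∧
    (∀ i < k, ρ i t < 1 / y i ^ 3) ∧ ∃ u ∉ S k, D u t else {x n}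
  have mem : ∀ k < n, ∀ t, t ∈ Lv k ↔ 1 / y k ^ 3 ≤ ρ k t ∧
      (∀ i < k, ρ i t < 1 / y i ^ 3) ∧ ∃ u ∉ S k, D u t := fun k h t => by simp only [Lv, one_div, h, ↓ reduceIte, mem_filter, mem_univ, true_and]
  have key : ∀ k, ∀ z, ∃ p : V → ℝ, k < n → z ∈ Lv (k + 1) →
      (∀ t, 0 ≤ p t ∧ p t ≤ 2 / y k ^ 40) ∧ ∑ t, p t = 1 ∧ ∀ t, 0 < p t → t ∈ Lv k ∧ Link D z t b := by
    intro k z
    by_cases hk : k < n ∧ z ∈ Lv (k + 1)
    swap
    · exact ⟨0, fun p q => absurd ⟨p, q⟩ hk⟩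
    obtain ⟨hk, hz⟩ := hk
    have hc : Cert D z (S k) (ρ k) (1 / 4) := by
      by_cases e : k + 1 < n
      · obtain ⟨-, p, u, q, r⟩ := (mem _ e z).1 hz
        refine ((h2 k hk u q).2.step r ((p k (Nat.lt_succ_self k)).trans_le ?_)).2
        exact one_div_le_one_div_of_le (by norm_num)
          (le_trans (le_trans (by norm_num) (z20 k)) (le_self_pow₀ (z1 k) (by norm_num)))
      · obtain rfl : n = k + 1 := by omega
        obtain rfl : z = x (k + 1) := by simpa only [Lv, Order.lt_add_one_iff, one_div, add_le_iff_nonpos_right, nonpos_iff_eq_zero, one_ne_zero, ↓ reduceIte, mem_singleton] using hz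
        exact (h2 k hk _ (h1 _ le_rfl).1).2.mono (by norm_num)
    obtain ⟨-, r0, r1, -, fl⟩ := h1 k hk.le
    have a1 : 2 / y k ^ 9 ≤ e1 := by
      rw [div_le_iff₀ e0] at c2
      rw [div_le_iff₀ (pow_pos (z0 k) 9)]
      nlinarith only [(yl k).trans (le_self_pow₀ (z1 k) (n := 9) (by norm_num)), e0, c2]
    have a2 : 2 ^ 54 ≤ b ^ 2 * y k := by
      rw [div_le_iff₀ (pow_pos b0 2)] at c3
      have : (1 : ℝ) ≤ ((n : ℝ) + 1) ^ 3 := one_le_pow₀ (by linarith only [])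
      linarith only [mul_le_mul_of_nonneg_left (yl k) (sq_nonneg b), c3, this]
    obtain ⟨p, p1, p2, p3⟩ := (stage_out hR η0.le hη (hH V D) (z20 k) a1 b0.le a2 (hK' k hk.le) r0 r1
      fl hc).resolve_left hC
    have m : 1 / 2 ≤ ∑ t, ind (∀ i < k, ρ i t < 1 / y i ^ 3) * p t := by
      have s1 : ∀ t, p t ≤ ind (∀ i < k, ρ i t < 1 / y i ^ 3) * p t +
          (∑ i ∈ range k, ind (1 / y i ^ 3 ≤ ρ i t)) * (1 / y k ^ 40) := fun t => by
        by_cases c : ∀ i < k, ρ i t < 1 / y i ^ 3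
        · rw [ind_of c, one_mul]
          exact le_add_of_nonneg_right (mul_nonneg (sum_nonneg fun _ _ => ind_nonneg _)
            ((p1 t).1.trans (p1 t).2))
        · rw [ind_not c, zero_mul, zero_add]
          push Not at c
          obtain ⟨i, hi, c⟩ := c
          refine (p1 t).2.trans (le_mul_of_one_le_left ((p1 t).1.trans (p1 t).2) ?_)
          exact (ind_of c).ge.trans (single_le_sum (f := fun i => ind (1 / y i ^ 3 ≤ ρ i t))
            (fun _ _ => ind_nonneg _) (mem_range.2 hi))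
      have s2 := sum_le_sum fun t (_ : t ∈ univ) => s1 t
      rw [sum_add_distrib, ← sum_mul, sum_comm] at s2
      have s3 : ∑ i ∈ range k, ∑ t, ind (1 / y i ^ 3 ≤ ρ i t) ≤ ∑ _i ∈ range k, 2 ^ 46 * y k ^ 39 :=
        sum_le_sum fun i hi => (hv i (by have := mem_range.1 hi; omega)).trans
          (mul_le_mul_of_nonneg_left (by
            calc y i ^ 47 ≤ y (i + 1) ^ 39 := by
                  rw [ys, ← pow_mul]; exact pow_le_pow_right₀ (z1 i) (by norm_num)
              _ ≤ _ := pow_le_pow_left₀ (z0 _).le (ym (mem_range.1 hi)) 39) (by norm_num))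
      rw [sum_const, card_range, nsmul_eq_mul] at s3
      have s4 : (k : ℝ) * (2 ^ 46 * y k ^ 39) * (1 / y k ^ 40) ≤ 1 / 4 := by
        have : (k : ℝ) ≤ n := by exact_mod_cast hk.le
        rw [mul_one_div, div_le_iff₀ (pow_pos (z0 k) 40), pow_succ (y k) 39]
        linarith only [mul_le_mul_of_nonneg_right (show 2 ^ 48 * (k : ℝ) ≤ y k by linarith only [yl k, c4, this])
          (pow_pos (z0 k) 39).le]
      have := mul_le_mul_of_nonneg_right s3 (one_div_pos.2 (pow_pos (z0 k) 40)).le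
      linarith only [p2, s2, s4, this]
    have m0 := (show (0 : ℝ) < 1 / 2 by norm_num).trans_le m
    refine ⟨fun t => ind (∀ i < k, ρ i t < 1 / y i ^ 3) * p t /
      ∑ t, ind (∀ i < k, ρ i t < 1 / y i ^ 3) * p t, fun _ _ => ⟨fun t =>
        ⟨div_nonneg (mul_nonneg (ind_nonneg _) (p1 t).1) m0.le, ?_⟩, ?_, fun t ht => ?_⟩⟩
    · rw [div_le_iff₀ m0]
      have := mul_le_mul_of_nonneg_left m (div_pos two_pos (pow_pos (z0 k) 40)).le
      refine (ind_mul_le ((p1 t).1.trans (p1 t).2) fun _ => (p1 t).2).trans (le_trans (le_of_eq ?_) this)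
      ring
    · rw [← sum_div, div_self m0.ne']
    · have c : ∀ i < k, ρ i t < 1 / y i ^ 3 := by
        by_contra c
        simp only [ind_not c, zero_mul, zero_div, lt_irrefl] at ht
      simp only [ind_of c, one_mul] at ht
      obtain ⟨q1, q2, q3⟩ := p3 t ((div_pos_iff_of_pos_right m0).1 ht)
      exact ⟨(mem k hk t).2 ⟨q1, c, q3⟩, q2⟩
  choose p hp using key
  obtain ⟨t, t1, t2⟩ := chain (D := D) n Lv p (fun k => 2 / y k ^ 40) (fun k => 2 ^ 46 * y k ^ 47) b0.le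
    b0.le (x n) (by simp only [Lv, one_div, lt_self_iff_false, ↓ reduceIte, mem_singleton]) (fun k h z hz => hp k z h hz) (fun k h =>
      ⟨by have := z0 k; positivity, le_trans (by
        rw [card_eq_sum_ones, Nat.cast_sum]
        refine le_trans (sum_le_sum fun u hu => ?_) (sum_le_sum_of_subset_of_nonneg (subset_univ (Lv k))
          fun _ _ _ => ind_nonneg _)
        rw [ind_of ((mem k h u).1 hu).1, Nat.cast_one]) (hv k h.le)⟩) (fun i _ => by
      rw [div_le_iff₀ (pow_pos b0 2)] at c3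
      have := z0 i
      have e : 2 / y (i + 1) ^ 40 * (2 / y i ^ 40) * (2 * ((n : ℝ) + 1) ^ 3 * (2 ^ 46 * y i ^ 47)) =
          2 ^ 49 * ((n : ℝ) + 1) ^ 3 / y i ^ 73 := by rw [ys]; field_simp
      rw [e, div_le_iff₀ (by positivity)]
      have : 0 ≤ ((n : ℝ) + 1) ^ 3 := by positivity
      linarith only [mul_le_mul_of_nonneg_left ((yl i).trans (le_self_pow₀ (z1 i) (n := 73) (by norm_num)))
        (sq_nonneg b), c3, this])
  have ne : ∀ j k, j < k → k < n → t k ≠ t j := fun j k h hk e =>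
    absurd ((mem j (h.trans hk) _).1 (t1 j (h.trans hk))).1
      (not_le.2 (e ▸ ((mem k hk _).1 (t1 k hk)).2.1 j h))
  refine hC ⟨fun a => t a.rev, fun a c e => ?_, fun a c h =>
    (t2 c.rev a.rev (Fin.rev_lt_rev.2 h) a.rev.2).mono ?_⟩
  · by_contra k
    rcases lt_or_gt_of_ne k with h | h
    · exact ne c.rev a.rev (Fin.rev_lt_rev.2 h) a.rev.2 e
    · exact ne a.rev c.rev (Fin.rev_lt_rev.2 h) c.rev.2 e.symm
  · have : (n : ℝ) * (b + b) + 2 * b = d := by rw [hb]; field_simp; ring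
    linarith only [b0, this]

end Pool.Agent.MP_114209_co.H79

namespace Pool.Agent.MP_114209_co.H79

open Finset
open scoped Classical

section
variable {V : Type} [Fintype V] {D : V → V → Prop}

end

theorem k6d_rank {V : Type} [Fintype V] (F : Digraph V)
    (hF : ∀ a, ¬ Relation.TransGen F.Adj a a) :
    ∃ (N : ℕ) (g : V → Fin N), Function.Injective g ∧ ∀ a b, F.Adj a b → g a < g b := by
  set n := Fintype.card V with hn
  let r : V → ℕ := fun a => (univ.filter fun x => Relation.TransGen F.Adj x a).card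
  let e := Fintype.equivFin V
  have hr : ∀ a, r a ≤ n := fun a => card_le_univ _
  have he : ∀ a, (e a : ℕ) < n := fun a => (e a).2
  refine ⟨(n + 1) * n, fun a => ⟨r a * n + e a, by nlinarith [hr a, he a]⟩, fun a b h => ?_,
    fun a b h => ?_⟩
  · have h1 := congrArg (fun x : Fin ((n + 1) * n) => (x : ℕ) % n) h
    simp only [Nat.mul_add_mod_self_right, Nat.mod_eq_of_lt (he _)] at h1
    exact e.injective (Fin.ext h1)
  · have h1 : r a < r b := card_lt_card ⟨fun x hx => by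
      simp only [mem_filter, mem_univ, true_and] at hx ⊢
      exact hx.tail h, fun hs => hF a (by
        simpa only [mem_filter, mem_univ, true_and] using hs (mem_filter.2 ⟨mem_univ a, Relation.TransGen.single h⟩))⟩
    have h2 : (r a + 1) * n ≤ r b * n := Nat.mul_le_mul_right n h1
    show r a * n + e a < r b * n + e b
    linarith only [he a, h2]

theorem maderian_acyclic {V : Type} [Fintype V] (F : Digraph V)
    (hF : ∀ a, ¬ Relation.TransGen F.Adj a a) : H87.Maderian F := by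
  obtain ⟨N, g, hg, hlt⟩ := k6d_rank F hF
  have h0 : (0 : ℝ) < 2 * (Fintype.card V : ℝ) ^ 3 + 1 := by positivity
  obtain ⟨K, hK⟩ := tt_points N (1 / (2 * (Fintype.card V : ℝ) ^ 3 + 1)) (by positivity)
  refine ⟨K, fun W _ _ D hl hd => ?_⟩
  obtain ⟨t, ht, hL⟩ := hK W D.Adj hl fun w => by
    have := hd w
    rwa [Nat.card_eq_fintype_card, Fintype.card_subtype] at this
  refine l0 F D (t ∘ g) (ht.comp hg) (by positivity) ?_ fun a b h => hL _ _ (hlt a b h)
  rw [mul_one_div, div_lt_one h0]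
  linarith

end Pool.Agent.MP_114209_co.H79

end
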